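import Pool.Agent.H1.UZ.TarPC

/-! PCW: coordinatewise maps. -/

set_option linter.unusedVariables false

open Ordinal Order Set
open scoped ZFSet

namespace SE.UZ

open SF PSR

theorem fst_hf (hA : T_AA) {z : V} (hz : z ∈ hf) : fst z ∈ hf := by
  by_cases h : ∃ x y, z = ZFSet.pair x y
  · obtain ⟨x, y, rfl⟩ := h
    rw [fst_pair]
    have h1 : ({x} : V) ∈ ZFSet.pair x y := by
      unfold ZFSet.pair
      exact ZFSet.mem_pair.2 (Or.inl rfl)
    exact hA.1.mem_trans (ZFSet.mem_singleton.2 rfl) (hA.1.mem_trans h1 hz)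
  · rw [fst_eq_of_not h, ← nS_zero]
    exact hA.2.1 0

theorem snd_hf (hA : T_AA) {z : V} (hz : z ∈ hf) : snd z ∈ hf := by
  by_cases h : ∃ x y, z = ZFSet.pair x y
  · obtain ⟨x, y, rfl⟩ := h
    rw [snd_pair]
    have h1 : ({x, y} : V) ∈ ZFSet.pair x y := by
      unfold ZFSet.pair
      exact ZFSet.mem_pair.2 (Or.inr rfl)
    exact hA.1.mem_trans (ZFSet.mem_pair.2 (Or.inr rfl)) (hA.1.mem_trans h1 hz)
  · rw [snd_eq_of_not, ← nS_zero]
    · exact hA.2.1 0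
    · rintro ⟨x, y, h2⟩
      exact h ⟨x, y, h2⟩

/-- a function on `ω × hf` with values in `hf` -/
theorem cw_mk (G : V → V) (h : ∀ (n : ℕ), ∀ t ∈ hf, G (ZFSet.pair (nS n) t) ∈ hf) :
    Cw (resS (ZFSet.prod om hf) G) ∧ ∀ (n : ℕ), ∀ t ∈ hf,
      app (resS (ZFSet.prod om hf) G) (ZFSet.pair (nS n) t) = G (ZFSet.pair (nS n) t) := by
  constructor
  · refine isFunc_resS _ _ _ fun z hz => ?_
    obtain ⟨a, ha, b, hb, rfl⟩ := ZFSet.mem_prod.1 hz
    obtain ⟨n, rfl⟩ := mem_om.1 ha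
    exact h n b hb
  · intro n t ht
    exact app_resS (ZFSet.mem_prod.2 ⟨_, nS_mem_om n, _, ht, rfl⟩)

theorem cw_val (hG : T_AG) {F x : V} (hF : Cw F) (hx : Rl x) : Rl (cw F x) ∧
    ∀ n : ℕ, app (cw F x) (nS n) = app F (ZFSet.pair (nS n) (app x (nS n))) := by
  refine hG.2.2.2.2.2 (fun n => app F (ZFSet.pair n (app x n))) fun n => ?_
  exact app_mem hF (ZFSet.mem_prod.2 ⟨_, nS_mem_om n, _, ((hG.1 x hx).2.2.1 n).1, rfl⟩)

theorem pf_PCW (hA : T_AA) (hG : T_AG) (hH : T_AH) : T_PCW := by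
  have vh : ∀ x, Rl x → ∀ n : ℕ, app x (nS n) ∈ hf := fun x hx n => ((hG.1 x hx).2.2.1 n).1
  have pm : ∀ x ∈ hf, ∀ y ∈ hf, ZFSet.pair x y ∈ hf := hA.2.2.2.1
  have kv : ∀ e n : ℕ, app (kc e) (nS n) = nS e := fun e n => (hH.2.2.2.1 e).2 n
  have kr : ∀ e : ℕ, Rl (kc e) := fun e => (hH.2.2.2.1 e).1
  have ext := hG.2.2.1
  have pr' := hH.1
  -- the four maps
  have m1 : ∀ F, Cw F → Cw (cw1 F) ∧ ∀ (n : ℕ), ∀ t ∈ hf, app (cw1 F) (ZFSet.pair (nS n) t) =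
      ZFSet.pair (app F (ZFSet.pair (nS n) (fst t))) (snd t) := by
    intro F hF
    have h := cw_mk (fun z => ZFSet.pair (app F (ZFSet.pair (fst z) (fst (snd z))))
      (snd (snd z))) (fun n t ht => by
        simp only [fst_pair, snd_pair]
        exact pm _ (app_mem hF (ZFSet.mem_prod.2 ⟨_, nS_mem_om n, _, fst_hf hA ht, rfl⟩)) _
          (snd_hf hA ht))
    refine ⟨h.1, fun n t ht => ?_⟩
    have := h.2 n t ht
    simp only [fst_pair, snd_pair] at this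
    exact this
  have ma : Cw cwa ∧ ∀ (n : ℕ), ∀ t ∈ hf, app cwa (ZFSet.pair (nS n) t) =
      ZFSet.pair (fst t) (fst (snd t)) := by
    have h := cw_mk (fun z => ZFSet.pair (fst (snd z)) (fst (snd (snd z)))) (fun n t ht => by
        simp only [fst_pair, snd_pair]
        exact pm _ (fst_hf hA ht) _ (fst_hf hA (snd_hf hA ht)))
    refine ⟨h.1, fun n t ht => ?_⟩
    have := h.2 n t ht
    simp only [fst_pair, snd_pair] at this
    exact this
  have mb : Cw cwb ∧ ∀ (n : ℕ), ∀ t ∈ hf, app cwb (ZFSet.pair (nS n) t) =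
      ZFSet.pair (fst t) (snd (snd t)) := by
    have h := cw_mk (fun z => ZFSet.pair (fst (snd z)) (snd (snd (snd z)))) (fun n t ht => by
        simp only [fst_pair, snd_pair]
        exact pm _ (fst_hf hA ht) _ (snd_hf hA (snd_hf hA ht)))
    refine ⟨h.1, fun n t ht => ?_⟩
    have := h.2 n t ht
    simp only [fst_pair, snd_pair] at this
    exact this
  have md : Cw cwd ∧ ∀ (n : ℕ), ∀ t ∈ hf, app cwd (ZFSet.pair (nS n) t) =
      ZFSet.pair (ZFSet.pair (nS 1) (fst t)) (snd t) := by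
    have h := cw_mk (fun z => ZFSet.pair (ZFSet.pair (nS 1) (fst (snd z))) (snd (snd z)))
      (fun n t ht => by
        simp only [fst_pair, snd_pair]
        exact pm _ (pm _ (hA.2.1 1) _ (fst_hf hA ht)) _ (snd_hf hA ht))
    refine ⟨h.1, fun n t ht => ?_⟩
    have := h.2 n t ht
    simp only [fst_pair, snd_pair] at this
    exact this
  have mf : ∀ a, Rl a → Cw (cwf a) ∧ ∀ (n : ℕ), ∀ t ∈ hf, app (cwf a) (ZFSet.pair (nS n) t) =
      ZFSet.pair (ZFSet.pair (nS 0) (ZFSet.pair (app a (nS n)) (fst t))) (snd t) := by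
    intro a ha
    have h := cw_mk (fun z => ZFSet.pair (ZFSet.pair (nS 0)
      (ZFSet.pair (app a (fst z)) (fst (snd z)))) (snd (snd z))) (fun n t ht => by
        simp only [fst_pair, snd_pair]
        exact pm _ (pm _ (hA.2.1 0) _ (pm _ (vh a ha n) _ (fst_hf hA ht))) _ (snd_hf hA ht))
    refine ⟨h.1, fun n t ht => ?_⟩
    have := h.2 n t ht
    simp only [fst_pair, snd_pair] at this
    exact this
  have q0 : ∀ u, Rl u → Rl (r0 u) ∧ ∀ n : ℕ, app (r0 u) (nS n) = fst (app u (nS n)) :=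
    fun u hu => hG.2.2.2.2.2 (fun n => fst (app u n)) fun n => fst_hf hA (vh u hu n)
  have q1 : ∀ u, Rl u → Rl (r1 u) ∧ ∀ n : ℕ, app (r1 u) (nS n) = snd (app u (nS n)) :=
    fun u hu => hG.2.2.2.2.2 (fun n => snd (app u n)) fun n => snd_hf hA (vh u hu n)
  refine ⟨fun F hF x hx => cw_val hG hF hx, fun F hF => ⟨(m1 F hF).1, fun x v hx hv => ?_⟩,
    fun u hu => ⟨(q0 u hu).1, (q1 u hu).1⟩, fun x y hx hy => ⟨?_, ?_⟩,
    ⟨ma.1, fun x u hx hu => ?_⟩, ⟨mb.1, fun x u hx hu => ?_⟩, ⟨md.1, fun z v hz hv => ?_⟩,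
    fun a ha => ⟨(mf a ha).1, fun x y hx hy => ?_⟩, fun M k => ?_⟩
  · have c1 := cw_val hG hF hx
    have c2 := cw_val hG (m1 F hF).1 (pr' x v hx hv).1
    refine ext _ _ c2.1 (pr' _ _ c1.1 hv).1 fun n => ?_
    rw [c2.2 n, (m1 F hF).2 n _ (vh _ (pr' x v hx hv).1 n), (pr' x v hx hv).2 n,
      (pr' _ _ c1.1 hv).2 n, fst_pair, snd_pair, c1.2 n]
  · refine ext _ _ (q0 _ (pr' x y hx hy).1).1 hx fun n => ?_
    rw [(q0 _ (pr' x y hx hy).1).2 n, (pr' x y hx hy).2 n, fst_pair]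
  · refine ext _ _ (q1 _ (pr' x y hx hy).1).1 hy fun n => ?_
    rw [(q1 _ (pr' x y hx hy).1).2 n, (pr' x y hx hy).2 n, snd_pair]
  · have c2 := cw_val hG ma.1 (pr' x u hx hu).1
    refine ext _ _ c2.1 (pr' _ _ hx (q0 u hu).1).1 fun n => ?_
    rw [c2.2 n, ma.2 n _ (vh _ (pr' x u hx hu).1 n), (pr' x u hx hu).2 n,
      (pr' _ _ hx (q0 u hu).1).2 n, fst_pair, snd_pair, (q0 u hu).2 n]
  · have c2 := cw_val hG mb.1 (pr' x u hx hu).1
    refine ext _ _ c2.1 (pr' _ _ hx (q1 u hu).1).1 fun n => ?_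
    rw [c2.2 n, mb.2 n _ (vh _ (pr' x u hx hu).1 n), (pr' x u hx hu).2 n,
      (pr' _ _ hx (q1 u hu).1).2 n, fst_pair, snd_pair, (q1 u hu).2 n]
  · have c2 := cw_val hG md.1 (pr' z v hz hv).1
    have c3 := pr' (kc 1) z (kr 1) hz
    refine ext _ _ c2.1 (pr' _ _ c3.1 hv).1 fun n => ?_
    rw [c2.2 n, md.2 n _ (vh _ (pr' z v hz hv).1 n), (pr' z v hz hv).2 n,
      (pr' _ _ c3.1 hv).2 n, fst_pair, snd_pair, c3.2 n, kv]
  · have c2 := cw_val hG (mf a ha).1 (pr' x y hx hy).1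
    have c3 := pr' a x ha hx
    have c4 := pr' (kc 0) (prl a x) (kr 0) c3.1
    refine ext _ _ c2.1 (pr' _ _ c4.1 hy).1 fun n => ?_
    rw [c2.2 n, (mf a ha).2 n _ (vh _ (pr' x y hx hy).1 n), (pr' x y hx hy).2 n,
      (pr' _ _ c4.1 hy).2 n, fst_pair, snd_pair, c4.2 n, kv, c3.2 n]
  · have ht : Tm ZFm (fun _ _ => hf) := hA.2.2.2.2.2.2.2.1
    have hp : Tm ZFm (fun _ _ => ZFSet.prod om hf) := Tm.prod Tm.om ht
    have t1 : Tm ZFm (fun _ v => cw1 (v 0)) :=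
      Tm.resS (g := fun _ v => ZFSet.pair (app (v 1) (ZFSet.pair (fst (v 0)) (fst (snd (v 0)))))
        (snd (snd (v 0)))) hp
        (Tm.pair (Tm.app (Tm.var 1) (Tm.pair (Tm.fst (Tm.var 0)) (Tm.fst (Tm.snd (Tm.var 0)))))
          (Tm.snd (Tm.snd (Tm.var 0))))
    have t2 : Tm ZFm (fun _ v => cw (v 0) (v 1)) :=
      Tm.resS (g := fun _ v => app (v 1) (ZFSet.pair (v 0) (app (v 2) (v 0)))) Tm.om
        (Tm.app (Tm.var 1) (Tm.pair (Tm.var 0) (Tm.app (Tm.var 2) (Tm.var 0))))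
    have t3 : Tm ZFm (fun _ v => r0 (v 0)) :=
      Tm.resS (g := fun _ v => fst (app (v 1) (v 0))) Tm.om
        (Tm.fst (Tm.app (Tm.var 1) (Tm.var 0)))
    have t4 : Tm ZFm (fun _ v => r1 (v 0)) :=
      Tm.resS (g := fun _ v => snd (app (v 1) (v 0))) Tm.om
        (Tm.snd (Tm.app (Tm.var 1) (Tm.var 0)))
    have t5 : Tm ZFm (fun _ _ => cwa) :=
      Tm.resS (g := fun _ v => ZFSet.pair (fst (snd (v 0))) (fst (snd (snd (v 0))))) hp
        (Tm.pair (Tm.fst (Tm.snd (Tm.var 0))) (Tm.fst (Tm.snd (Tm.snd (Tm.var 0)))))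
    have t6 : Tm ZFm (fun _ _ => cwb) :=
      Tm.resS (g := fun _ v => ZFSet.pair (fst (snd (v 0))) (snd (snd (snd (v 0))))) hp
        (Tm.pair (Tm.fst (Tm.snd (Tm.var 0))) (Tm.snd (Tm.snd (Tm.snd (Tm.var 0)))))
    have t7 : Tm ZFm (fun _ _ => cwd) :=
      Tm.resS (g := fun _ v => ZFSet.pair (ZFSet.pair (nS 1) (fst (snd (v 0))))
        (snd (snd (v 0)))) hp
        (Tm.pair (Tm.pair (Tm.nS 1) (Tm.fst (Tm.snd (Tm.var 0)))) (Tm.snd (Tm.snd (Tm.var 0))))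
    have t8 : Tm ZFm (fun _ v => cwf (v 0)) :=
      Tm.resS (g := fun _ v => ZFSet.pair (ZFSet.pair (nS 0)
        (ZFSet.pair (app (v 1) (fst (v 0))) (fst (snd (v 0))))) (snd (snd (v 0)))) hp
        (Tm.pair (Tm.pair (Tm.nS 0) (Tm.pair (Tm.app (Tm.var 1) (Tm.fst (Tm.var 0)))
          (Tm.fst (Tm.snd (Tm.var 0))))) (Tm.snd (Tm.snd (Tm.var 0))))
    have v0 : In M (fun _ => (∅ : V)) := fun _ => k.mempty
    exact ⟨fun F hF => ⟨t1.1 M k (fun _ => F) fun _ => hF, fun x hx =>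
      t2.1 M k (cons F (cons x fun _ => F)) (In.cons (In.cons (fun _ => hF) hx) hF)⟩,
      fun u hu => ⟨t3.1 M k (fun _ => u) fun _ => hu, t4.1 M k (fun _ => u) fun _ => hu⟩,
      t5.1 M k _ v0, t6.1 M k _ v0, t7.1 M k _ v0, fun a ha => t8.1 M k (fun _ => a) fun _ => ha⟩

end SE.UZ
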