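import Pool.Agent.H45.UZ.TarP

/-! PHB: images of histories. -/

set_option linter.unusedVariables false

open Ordinal Order Set
open scoped ZFSet

namespace SE.UZ

open SF

namespace PHB

theorem mve_ht (π q X Y t : V) : mve π (ht q X Y t) = ht (mv π q) (mvn π X) (mvn π Y) t := by
  unfold mve ht
  simp only [fst_pair, snd_pair]

theorem ht_inj {q X Y t q' X' Y' t' : V} (h : ht q X Y t = ht q' X' Y' t') :
    q = q' ∧ X = X' ∧ Y = Y' ∧ t = t' := by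
  unfold ht at h
  obtain ⟨h1, h2⟩ := ZFSet.pair_injective h
  obtain ⟨h3, h4⟩ := ZFSet.pair_injective h2
  obtain ⟨h5, h6⟩ := ZFSet.pair_injective h4
  exact ⟨h1, h3, h5, h6⟩

theorem mem {π h z : V} : z ∈ mvh π h ↔ ∃ w ∈ h, mve π w = z := mem_imS

theorem tm (hBBc : T_BBc) : Tm ZFm (fun _ v => mvh (v 0) (v 1)) := by
  have tmv : Tm ZFm (fun _ v => mv (v 0) (v 1)) := hBBc.2.2.1
  have tmn : Tm ZFm (fun _ v => mvn (v 0) (v 1)) :=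
    Tm.image (g := fun _ v => ZFSet.pair (mv (v 1) (fst (v 0))) (snd (v 0))) (Tm.var 1)
      (Tm.pair (Tm.at2 tmv (Tm.var 1) (Tm.fst (Tm.var 0))) (Tm.snd (Tm.var 0)))
  exact Tm.image (g := fun _ v => mve (v 1) (v 0)) (Tm.var 1)
    (Tm.pair (Tm.at2 tmv (Tm.var 1) (Tm.fst (Tm.var 0))) (Tm.pair
      (Tm.at2 tmn (Tm.var 1) (Tm.fst (Tm.snd (Tm.var 0)))) (Tm.pair
        (Tm.at2 tmn (Tm.var 1) (Tm.fst (Tm.snd (Tm.snd (Tm.var 0)))))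
        (Tm.snd (Tm.snd (Tm.snd (Tm.var 0)))))))

theorem hr_eq (π h : V) (e : Ordinal.{0}) : hr (mvh π h) e = mvh π (hr h e) := by
  have key : ∀ w, snd (snd (snd (mve π w))) = snd (snd (snd w)) := by
    intro w
    unfold mve
    simp only [snd_pair]
  unfold hr
  ext z
  rw [ZFSet.mem_sep, mem, mem]
  constructor
  · rintro ⟨⟨w, hw, rfl⟩, h2⟩
    rw [key] at h2
    exact ⟨w, ZFSet.mem_sep.2 ⟨hw, h2⟩, rfl⟩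
  · rintro ⟨w, hw, rfl⟩
    obtain ⟨h1, h2⟩ := ZFSet.mem_sep.1 hw
    refine ⟨⟨w, h1, rfl⟩, ?_⟩
    rw [key]
    exact h2

/-- agreement of the images -/
theorem congr {D : Cx} {ρ h π π' : V} {σ : Ordinal.{0}} (hh : His D ρ h σ)
    (h1 : ∀ q ∈ D.P ρ, mv π q = mv π' q)
    (h2 : ∀ Y, D.N Y → Nam D.L ρ Y → mvn π Y = mvn π' Y) : mvh π h = mvh π' h := by
  have key : ∀ w ∈ h, mve π w = mve π' w := by
    intro w hw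
    obtain ⟨q, hq, X, Y, e, he, ⟨hX, hX'⟩, ⟨hY, hY'⟩, rfl⟩ := hh.m w hw
    rw [mve_ht, mve_ht, h1 q hq, h2 X hX hX', h2 Y hY hY']
  ext z
  rw [mem, mem]
  constructor
  · rintro ⟨w, hw, rfl⟩
    exact ⟨w, hw, (key w hw).symm⟩
  · rintro ⟨w, hw, rfl⟩
    exact ⟨w, hw, key w hw⟩

/-- fixed histories -/
theorem fix {D : Cx} {ρ h π : V} {σ : Ordinal.{0}} (hh : His D ρ h σ)
    (h1 : ∀ q ∈ D.P ρ, mv π q = q)
    (h2 : ∀ Y, D.N Y → Nam D.L ρ Y → mvn π Y = Y) : mvh π h = h := by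
  have key : ∀ w ∈ h, mve π w = w := by
    intro w hw
    obtain ⟨q, hq, X, Y, e, he, ⟨hX, hX'⟩, ⟨hY, hY'⟩, rfl⟩ := hh.m w hw
    rw [mve_ht, h1 q hq, h2 X hX hX', h2 Y hY hY']
  ext z
  rw [mem]
  constructor
  · rintro ⟨w, hw, rfl⟩
    rw [key w hw]
    exact hw
  · intro hz
    exact ⟨z, hz, key z hz⟩

/-- the inverse -/
theorem invh {D : Cx} {ρ h π π' : V} {σ : Ordinal.{0}} (hh : His D ρ h σ)
    (h1 : ∀ q ∈ D.P ρ, mv π' (mv π q) = q)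
    (h2 : ∀ Y, D.N Y → Nam D.L ρ Y → mvn π' (mvn π Y) = Y) : mvh π' (mvh π h) = h := by
  have key : ∀ w ∈ h, mve π' (mve π w) = w := by
    intro w hw
    obtain ⟨q, hq, X, Y, e, he, ⟨hX, hX'⟩, ⟨hY, hY'⟩, rfl⟩ := hh.m w hw
    rw [mve_ht, mve_ht, h1 q hq, h2 X hX hX', h2 Y hY hY']
  ext z
  rw [mem]
  constructor
  · rintro ⟨w', hw', rfl⟩
    obtain ⟨w, hw, rfl⟩ := mem.1 hw'
    rw [key w hw]
    exact hw
  · intro hz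
    exact ⟨_, mem.2 ⟨z, hz, rfl⟩, key z hz⟩

/-- entries of the image -/
theorem ent {D : Cx} {ρ h π G G' : V} {σ : Ordinal.{0}} (hh : His D ρ h σ)
    (h1 : ∀ q ∈ D.P ρ, (mv π q ∈ G' ↔ q ∈ G))
    (h2 : ∀ Y, D.N Y → Nam D.L ρ Y → ev G' (mvn π Y) = ev G Y) (X y : V) (e : Ordinal.{0}) :
    Ent (mvh π h) G' X y e ↔ Ent h G X y e := by
  constructor
  · rintro ⟨q', hq', X', Y', hz, rfl, rfl⟩
    obtain ⟨w, hw, hw'⟩ := mem.1 hz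
    obtain ⟨q, hq, X, Y, d, hd, ⟨hX, hX'⟩, ⟨hY, hY'⟩, rfl⟩ := hh.m w hw
    rw [mve_ht] at hw'
    obtain ⟨rfl, rfl, rfl, h4⟩ := ht_inj hw'
    rw [h4] at hw
    exact ⟨q, (h1 q hq).1 hq', X, Y, hw, (h2 X hX hX').symm, (h2 Y hY hY').symm⟩
  · rintro ⟨q, hq, X', Y', hz, rfl, rfl⟩
    obtain ⟨q0, hq0, X, Y, d, hd, ⟨hX, hX'⟩, ⟨hY, hY'⟩, hw⟩ := hh.m _ hz
    obtain ⟨rfl, rfl, rfl, h4⟩ := ht_inj hw
    exact ⟨mv π q, (h1 q hq0).2 hq, mvn π X', mvn π Y', mem.2 ⟨_, hz, mve_ht _ _ _ _ _⟩,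
      h2 X' hX hX', h2 Y' hY hY'⟩

end PHB

theorem pf_PHB (hPHA : T_PHA) (hQ1 : T_QI1) (hQ2 : T_QI2) (hQ3 : T_QI3) (hBA : T_BA)
    (hBBc : T_BBc) (hBJ : T_BJ) (hBL : T_BL) : T_PHB := by
  intro D hD l S π ρ ρ' hS hI h σ hh
  have zfm : ZFm D.N := hD.zfc.toZFCm.toZFm
  have hHN : ∀ x ∈ D.H, D.N x := (hBJ D hD).2.2.1
  -- general facts for all isomorphisms
  have tr : ∀ {π ρ ρ'}, Isl D l S π ρ ρ' → D.N ρ ∧ Tr ρ ∧ Cld D.L ρ := fun h =>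
    ⟨hHN _ h.i.h, (hBA.2.2.2.2.2.2 D.L _ h.i.c).1, h.i.c⟩
  have imρ : ∀ {π ρ ρ'}, Isl D l S π ρ ρ' → im π ρ = ρ' := fun h => (hQ1 D hD l S _ _ _ hS h).1.2.2.1
  have iinv : ∀ {π ρ ρ'}, Isl D l S π ρ ρ' → Isl D l S (inv π) ρ' ρ ∧ inv (inv π) = π := fun h =>
    ⟨(hQ1 D hD l S _ _ _ hS h).1.2.2.2.2.2.2, (hQ1 D hD l S _ _ _ hS h).1.2.2.2.2.1⟩
  have p1 : ∀ {π ρ ρ' h σ}, Isl D l S π ρ ρ' → His D ρ h σ → His D ρ' (mvh π h) σ := by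
    intro π ρ ρ' h σ hI hh
    obtain ⟨n1, n2⟩ := hQ2 D hD l S π ρ ρ' hS hI ρ (tr hI).1 (fun _ h => h) (tr hI).2.1
    rw [imρ hI] at n1 n2
    constructor
    · exact (PHB.tm hBBc).1 D.N zfm (cons π (cons h fun _ => π))
        (In.cons (In.cons (fun _ => hI.i.n) hh.n) hI.i.n)
    · intro z hz
      obtain ⟨w, hw, rfl⟩ := PHB.mem.1 hz
      obtain ⟨q, hq, X, Y, e, he, ⟨hX, hX'⟩, ⟨hY, hY'⟩, rfl⟩ := hh.m w hw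
      refine ⟨mv π q, (n2 q hq).1, mvn π X, mvn π Y, e, he, ⟨(n1 X hX hX').1, (n1 X hX hX').2.1⟩,
        ⟨(n1 Y hY hY').1, (n1 Y hY hY').2.1⟩, PHB.mve_ht _ _ _ _ _⟩
  have p2 : ∀ {π ρ ρ' h σ}, Isl D l S π ρ ρ' → His D ρ h σ → mvh (inv π) (mvh π h) = h := by
    intro π ρ ρ' h σ hI hh
    obtain ⟨n1, n2⟩ := hQ2 D hD l S π ρ ρ' hS hI ρ (tr hI).1 (fun _ h => h) (tr hI).2.1
    exact PHB.invh hh (fun q hq => (n2 q hq).2.1) fun Y hY hY' => (n1 Y hY hY').2.2.1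
  have p4 : ∀ {π ρ ρ' h σ}, Isl D l S π ρ ρ' → His D ρ h σ → ∀ G, D.Gn ρ G → ∀ X y e,
      (Ent (mvh π h) (gi D π ρ' G) X y e ↔ Ent h G X y e) := by
    intro π ρ ρ' h σ hI hh G hG X y e
    obtain ⟨-, -, -, c4, -, c6⟩ := hQ3 D hD l S π ρ ρ' hS hI G hG _ rfl
    exact PHB.ent hh c4 (c6 ρ (tr hI).1 (fun _ h => h) (tr hI).2.1).2.2.2.1 X y e
  -- restrictions
  have p5 : ∀ {π ρ ρ' s h0 σ}, Isl D l S π ρ ρ' → D.N s → s ⊆ ρ → Tr s → His D s h0 σ →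
      mvh (rst s π) h0 = mvh π h0 := by
    intro π ρ ρ' s h0 σ hI hs hs' hT hh
    obtain ⟨n1, n2⟩ := hQ2 D hD l S π ρ ρ' hS hI s hs hs' hT
    exact PHB.congr hh (fun q hq => (n2 q hq).2.2.1) fun Y hY hY' => (n1 Y hY hY').2.2.2.1
  have rs' : ∀ {π ρ ρ' s}, Isl D l S π ρ ρ' → D.N s → s ⊆ ρ → Tr s → Vws S s →
      Isl D l S (rst s π) s (im π s) ∧ im π s ⊆ ρ' ∧ D.N (im π s) ∧ Tr (im π s) ∧
        Vws S (im π s) ∧ im (inv π) (im π s) = s := by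
    intro π ρ ρ' s hI hs hs' hT hV
    obtain ⟨r1, r2, r3, r4, -⟩ := (hQ1 D hD l S π ρ ρ' hS hI).2.2.2.2 s hs hs' hT hV
    have r5 := (iinv r1).1
    exact ⟨r1, r3, (tr r5).1, (tr r5).2.1, (hQ1 D hD l S _ _ _ hS r1).1.2.2.2.2.2.1.2, r4⟩
  -- back and forth for the generic filters
  have bk : ∀ {π ρ ρ'}, Isl D l S π ρ ρ' → ∀ G', D.Gn ρ' G' → ∃ G, D.Gn ρ G ∧
      gi D π ρ' G = G' := by
    intro π ρ ρ' hI G' hG'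
    obtain ⟨c1, -, c3, -⟩ := hQ3 D hD l S (inv π) ρ' ρ hS (iinv hI).1 G' hG' _ rfl
    rw [(iinv hI).2] at c3
    exact ⟨_, c1, c3⟩
  have e0 : ∀ {π ρ ρ' s h0 τ}, Isl D l S π ρ ρ' → D.N s → s ⊆ ρ → Tr s → Vws S s →
      His D s h0 τ → ∀ G, D.Gn ρ G → ∀ X y e,
      (Ent (mvh π h0) (gi D π ρ' G) X y e ↔ Ent h0 G X y e) := by
    intro π ρ ρ' s h0 τ hI hs hs' hT hV hh G hG X y e
    obtain ⟨r1, r2, r3, r4, r5, -⟩ := rs' hI hs hs' hT hV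
    obtain ⟨c1, -, -, -, -, c6⟩ := hQ3 D hD l S π ρ ρ' hS hI G hG _ rfl
    obtain ⟨-, d2, -⟩ := c6 s hs hs' hT
    have hgs : D.Gn s (gs G s) := ((hBL D hD ρ G (tr hI).1 (tr hI).2.2 hG).2 s hs hs' hT).1
    have h1 := (hPHA D hD s ρ h0 τ hs r1.i.c (tr hI).1 (tr hI).2.2 hs' hh).1 G hG
    have h2 := (hPHA D hD (im π s) ρ' (mvh π h0) τ r3 r1.i.c' (hHN _ hI.i.h') hI.i.c' r2
      (p5 hI hs hs' hT hh ▸ p1 r1 hh)).1 _ c1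
    rw [(h1.1 X y e).1, (h2.1 X y e).1, d2, ← p5 hI hs hs' hT hh]
    exact p4 r1 hh (gs G s) hgs X y e
  have lc : ∀ {π ρ ρ' s h σ τ}, Isl D l S π ρ ρ' → D.N s → s ⊆ ρ → Tr s → Vws S s →
      His D ρ h σ → Loc D ρ h s τ → Loc D ρ' (mvh π h) (im π s) τ := by
    rintro π ρ ρ' s h σ τ hI hs hs' hT hV hh ⟨h0, hh0, hl⟩
    obtain ⟨r1, r2, r3, r4, r5, -⟩ := rs' hI hs hs' hT hV
    refine ⟨mvh π h0, p5 hI hs hs' hT hh0 ▸ p1 r1 hh0, fun G' hG' X hX y e => ?_⟩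
    obtain ⟨G, hG, rfl⟩ := bk hI G' hG'
    obtain ⟨-, -, -, -, -, c6⟩ := hQ3 D hD l S π ρ ρ' hS hI G hG _ rfl
    rw [e0 hI hs hs' hT hV hh0 G hG X y e, p4 hI hh G hG X y e]
    exact hl G hG X (((c6 s hs hs' hT).2.2.1 X).1 hX) y e
  refine ⟨p1 hI hh, p2 hI hh, fun e => PHB.hr_eq π h e, p4 hI hh, fun s hs hs' hT hV τ =>
    ⟨⟨fun hl => ?_, lc hI hs hs' hT hV hh⟩, fun h0 hh0 => ⟨p5 hI hs hs' hT hh0, fun hl G' hG' X hX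
      y e => ?_⟩⟩, fun hid => ?_⟩
  · obtain ⟨r1, r2, r3, r4, r5, r6⟩ := rs' hI hs hs' hT hV
    have := lc (iinv hI).1 r3 r2 r4 r5 (p1 hI hh) hl
    rw [r6, p2 hI hh] at this
    exact this
  · obtain ⟨G, hG, rfl⟩ := bk hI G' hG'
    obtain ⟨-, -, -, -, -, c6⟩ := hQ3 D hD l S π ρ ρ' hS hI G hG _ rfl
    rw [e0 hI hs hs' hT hV hh0 G hG X y e, p4 hI hh G hG X y e]
    exact hl G hG X (((c6 s hs hs' hT).2.2.1 X).1 hX) y e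
  · obtain ⟨n1, n2⟩ := hQ2 D hD l S π ρ ρ' hS hI ρ (tr hI).1 (fun _ h => h) (tr hI).2.1
    exact PHB.fix hh (fun q hq => (n2 q hq).2.2.2.1 hid) fun Y hY hY' => (n1 Y hY hY').2.2.2.2.1 hid

end SE.UZ
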