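import Pool.Agent.H45.UZ.TarA

/-! QI3: generic filters under isomorphisms. -/

set_option linter.unusedVariables false

open Ordinal Order Set
open scoped ZFSet

namespace SE.UZ

open SF

theorem QI3.mv_empty (π : V) : mv π ∅ = ∅ := by
  unfold mv
  ext z
  rw [mem_imS]
  constructor
  · rintro ⟨x, hx, -⟩
    exact absurd hx (ZFSet.notMem_empty x)
  · intro h
    exact absurd h (ZFSet.notMem_empty z)

theorem QI3.rst_empty (s : V) : rst s ∅ = ∅ := by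
  unfold rst
  ext z
  rw [ZFSet.mem_sep]
  constructor
  · rintro ⟨h, -⟩
    exact h
  · intro h
    exact absurd h (ZFSet.notMem_empty z)

theorem pf_QI3 (hQ1 : T_QI1) (hBA : T_BA) (hBC : T_BC) (hBD : T_BD) (hBJ : T_BJ) (hBL : T_BL)
    (hTBb : T_TBb) (hTCa : T_TCa) (hTCb : T_TCb) (hTCd : T_TCd) : T_QI3 := by
  intro D hD l S π ρ ρ' hS h G hG G' hG'
  subst hG'
  have hi : D.IsN π ρ ρ' ∅ := h.i
  have hρN : D.N ρ := (hBJ D hD).2.2.1 ρ hi.h
  have he : (∅ : V) ∈ G := (((hBJ D hD).2.2.2.2 ρ hρN hi.c).2 G hG).2.1.2.1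
  have hle : ∀ q ∈ D.P ρ, Le q ∅ := fun q hq => (hBD.2.2.2.1 _ _ q hq).2
  obtain ⟨-, hca⟩ := hTCa D hD π ρ ρ' ∅ hi
  obtain ⟨c1, c2, c3, c4, c5⟩ := hca G hG he
  obtain ⟨b1, -, b3⟩ := hTCb D hD π ρ ρ' ∅ hi G hG he
  have hmv : ∀ q ∈ D.P ρ, (mv π q ∈ gi D π ρ' G ↔ q ∈ G) := fun q hq => c3 q hq (hle q hq)
  refine ⟨c1, c4, ?_, hmv, fun i hi' => ?_, fun s hsN hs hT => ?_⟩
  · rw [QI3.mv_empty] at c5
    exact c5
  · obtain ⟨d1, -, d3⟩ := b1 i hi'
    refine ⟨d1, d3 h.z, ?_⟩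
    unfold prm
    rw [show cg (gi D π ρ' G) (app π i) = cg G i from d1,
      show ev (gi D π ρ' G) (lZ (app π i)) = ev G (lZ i) from d3 h.z]
  · obtain ⟨e1, e2, e3, e4, -⟩ := hTCd D hD π ρ ρ' ∅ hi s hsN hs hT
    obtain ⟨f1, f2⟩ := e4 G hG he
    rw [QI3.rst_empty] at e1 f1 f2
    have hb := (hTBb D.L π ρ ρ' ∅ hi.c hi.c' hi.i).2.2.2.2.2.2.2 s hs hT
    have hgs : D.Gn s (gs G s) := ((hBL D hD ρ G hρN hi.c hG).2 s hsN hs hT).1
    obtain ⟨-, hca'⟩ := hTCa D hD (rst s π) s (im π s) ∅ e1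
    obtain ⟨g1, g2, g3, g4, g5⟩ := hca' (gs G s) hgs f1
    have hev : ∀ Y, D.N Y → Nam D.L s Y → ev (gi D π ρ' G) (mvn π Y) = ev G Y := by
      intro Y hY hN
      unfold ev
      congr 1
      ext b
      rw [ZFSet.mem_sep, ZFSet.mem_sep]
      refine and_congr_right fun hb => ?_
      constructor
      · rintro ⟨q', hq', hz⟩
        obtain ⟨z, hz1, hz2⟩ := mem_imS.1 hz
        obtain ⟨q, hq, b', hb', rfl⟩ := hN.sub z hz1
        rw [fst_pair, snd_pair] at hz2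
        obtain ⟨r1, r2⟩ := ZFSet.pair_injective hz2
        subst r1
        subst r2
        have hqρ : q ∈ D.P ρ := by
          have := (hBC.2.2.2.1 D.L s q).1 hq
          exact hBD.2.1 D.L s ρ q hq fun x hx => hs (this.2.1 hx)
        exact ⟨q, (hmv q hqρ).1 hq', hz1⟩
      · rintro ⟨q, hq, hz⟩
        obtain ⟨q0, hq0, b', hb', r⟩ := hN.sub _ hz
        obtain ⟨r1, r2⟩ := ZFSet.pair_injective r
        subst r1
        subst r2
        have hqρ : q ∈ D.P ρ := by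
          have := (hBC.2.2.2.1 D.L s q).1 hq0
          exact hBD.2.1 D.L s ρ q hq0 fun x hx => hs (this.2.1 hx)
        refine ⟨mv π q, (hmv q hqρ).2 hq, mem_imS.2 ⟨_, hz, ?_⟩⟩
        rw [fst_pair, snd_pair]
    refine ⟨(hBA.2.2.2.2.2.2 D.L _ hb.2.1).1, f2, fun x => ?_, hev, fun hI => ?_⟩
    · have h1 : gs (gi D π ρ' G) (im π s) = gp D.L (rst s π) ∅ (im π s) (gs G s) := f2
      unfold RR
      rw [h1]
      exact and_congr_left fun _ => g4 x
    · obtain ⟨k1, k2, k3, k4⟩ := b3 s hsN hs hT hI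
      have k3' : gs (gi D π ρ' G) s = gs G s := k3
      refine ⟨k3', fun x => ?_, k4⟩
      unfold RR
      rw [k3']

end SE.UZ
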