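import Pool.Agent.H9.SE.Tar0
import Pool.Agent.H9.SE.TarK
import Pool.Agent.H1.SE.TarU
import Pool.Agent.H72.UZ.Defs

/-!
# MP_f6fd33_lc, part PC: calculus of the boldface pointclasses. Definitions and targets

`M` is a transitive model of `ZFm`. Open codes are replaced by sets of finite sequences in `M`
(PCO); continuous reindexing is only needed for maps which act on the coordinates, with a
parameter (`cw F`).
-/

set_option linter.unusedVariables false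

open Ordinal Order Set
open scoped ZFSet

namespace SE.UZ

open SF PSR

/-! ## Definitions -/

/-- `F : ω × hf → hf` -/
def Cw (F : V) : Prop := ZFSet.IsFunc (ZFSet.prod om hf) hf F

/-- the map of the reals which is given by `F : ω × hf → hf` -/
noncomputable def cw (F x : V) : V := resS om fun n => app F (ZFSet.pair n (app x n))

/-- `F` applied to the first component -/
noncomputable def cw1 (F : V) : V := resS (ZFSet.prod om hf) fun z =>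
  ZFSet.pair (app F (ZFSet.pair (fst z) (fst (snd z)))) (snd (snd z))

/-- `(x, (v, w)) ↦ (x, v)` -/
noncomputable def cwa : V := resS (ZFSet.prod om hf) fun z =>
  ZFSet.pair (fst (snd z)) (fst (snd (snd z)))

/-- `(x, (v, w)) ↦ (x, w)` -/
noncomputable def cwb : V := resS (ZFSet.prod om hf) fun z =>
  ZFSet.pair (fst (snd z)) (snd (snd (snd z)))

/-- `(z, v) ↦ ((1, z), v)` -/
noncomputable def cwd : V := resS (ZFSet.prod om hf) fun z =>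
  ZFSet.pair (ZFSet.pair (nS 1) (fst (snd z))) (snd (snd z))

/-- `(x, y) ↦ ((0, (a, x)), y)` -/
noncomputable def cwf (a : V) : V := resS (ZFSet.prod om hf) fun z =>
  ZFSet.pair (ZFSet.pair (nS 0) (ZFSet.pair (app a (fst z)) (fst (snd z)))) (snd (snd z))

/-- the first components of the values of a real -/
noncomputable def r0 (u : V) : V := resS om fun n => fst (app u n)

/-- the second components of the values of a real -/
noncomputable def r1 (u : V) : V := resS om fun n => snd (app u n)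

/-! ## Coordinatewise maps -/

/-- PCW: coordinatewise maps -/
def T_PCW : Prop :=
  (∀ F, Cw F → ∀ x, Rl x → Rl (cw F x) ∧
    ∀ n : ℕ, app (cw F x) (nS n) = app F (ZFSet.pair (nS n) (app x (nS n)))) ∧
  (∀ F, Cw F → Cw (cw1 F) ∧ ∀ x v, Rl x → Rl v → cw (cw1 F) (prl x v) = prl (cw F x) v) ∧
  (∀ u, Rl u → Rl (r0 u) ∧ Rl (r1 u)) ∧
  (∀ x y, Rl x → Rl y → r0 (prl x y) = x ∧ r1 (prl x y) = y) ∧
  (Cw cwa ∧ ∀ x u, Rl x → Rl u → cw cwa (prl x u) = prl x (r0 u)) ∧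
  (Cw cwb ∧ ∀ x u, Rl x → Rl u → cw cwb (prl x u) = prl x (r1 u)) ∧
  (Cw cwd ∧ ∀ z v, Rl z → Rl v → cw cwd (prl z v) = prl (prl (kc 1) z) v) ∧
  (∀ a, Rl a → Cw (cwf a) ∧
    ∀ x y, Rl x → Rl y → cw (cwf a) (prl x y) = prl (prl (kc 0) (prl a x)) y) ∧
  ∀ M, ZFm M → (∀ F, M F → M (cw1 F) ∧ ∀ x, M x → M (cw F x)) ∧ (∀ u, M u → M (r0 u) ∧ M (r1 u)) ∧
    M cwa ∧ M cwb ∧ M cwd ∧ ∀ a, M a → M (cwf a)

/-! ## Open sets -/

/-- PCO: codes of open sets and sets of finite sequences -/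
def T_PCO : Prop := ∀ M, ZFm M →
  (∀ S, M S → ∃ c, M c ∧ Rl c ∧ ∀ x, Rl x → (Opn c x ↔ ∃ m : ℕ, rs x (nS m) ∈ S)) ∧
  ∀ a, M a → Rl a → ∃ S, M S ∧ S ⊆ sq ∧ ∀ x, Rl x → (Opn a x ↔ ∃ m : ℕ, rs x (nS m) ∈ S)

/-- PCB: substitution, open sets -/
def T_PCB : Prop := ∀ M, ZFm M → ∀ F, M F → Cw F → ∀ a, M a → Rl a →
  ∃ c, M c ∧ Rl c ∧ ∀ x, Rl x → (Opn c x ↔ Opn a (cw F x))

/-- PCD: union and intersection of two open sets -/
def T_PCD : Prop := ∀ M, ZFm M → ∀ a b, M a → Rl a → M b → Rl b →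
  (∃ c, M c ∧ Rl c ∧ ∀ x, Rl x → (Opn c x ↔ Opn a x ∨ Opn b x)) ∧
  ∃ c, M c ∧ Rl c ∧ ∀ x, Rl x → (Opn c x ↔ Opn a x ∧ Opn b x)

/-! ## All levels -/

/-- PCC: substitution, level `n` -/
def T_PCC : Prop := ∀ M, ZFm M → ∀ (n : ℕ) (F : V), M F → Cw F → ∀ a, M a → Rl a →
  ∃ c, M c ∧ Rl c ∧ ∀ x, M x → Rl x → (SgH M n c x ↔ SgH M n a (cw F x))

/-- PCE: union and intersection, level `n` -/
def T_PCE : Prop := ∀ M, ZFm M → ∀ (n : ℕ) (a b : V), M a → Rl a → M b → Rl b →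
  (∃ c, M c ∧ Rl c ∧ ∀ x, M x → Rl x → (SgH M n c x ↔ SgH M n a x ∨ SgH M n b x)) ∧
  ∃ c, M c ∧ Rl c ∧ ∀ x, M x → Rl x → (SgH M n c x ↔ SgH M n a x ∧ SgH M n b x)

/-- PCF: the relations `D_k` are `Σ¹ₖ` -/
def T_PCF : Prop := ∀ M, ZFm M → ∀ L : V,
  (∃ a, M a ∧ Rl a ∧ ∀ x, M x → Rl x → (¬ Cod M L x ↔ P3 M a x)) →
  ∀ j : ℕ, ∃ c, M c ∧ Rl c ∧ ∀ z, M z → Rl z → (SgH M (j + 3) c z ↔ Dk M L j z)

/-- PCG: the complexity of the graph of the uniformizing function -/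
def T_PCG : Prop := ∀ M, ZFm M → ∀ L : V,
  (∃ a, M a ∧ Rl a ∧ ∀ x, M x → Rl x → (¬ Cod M L x ↔ P3 M a x)) →
  ∀ (j : ℕ) (a : V), M a → Rl a → ∃ b, M b ∧ Rl b ∧ ∀ x y, M x → Rl x → M y → Rl y →
    (SgH M (j + 3) b (prl x y) ↔
      SgH M (j + 3) a (prl x y) ∨ Dk M L j (prl (prl (kc 0) (prl a x)) y))

/-- PCH: uniformization (9.7); `E a x y` means that the entry of `(0, (a, x))` is `y` -/
def T_PCH : Prop := ∀ M, ZFm M → ∀ L : V,
  (∃ a, M a ∧ Rl a ∧ ∀ x, M x → Rl x → (¬ Cod M L x ↔ P3 M a x)) →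
  ∀ (j : ℕ) (E : V → V → V → Prop),
  (∀ a x y y', M a → Rl a → M x → Rl x → M y → Rl y → M y' → Rl y' →
    E a x y → E a x y' → y = y') →
  (∀ a x y, M a → Rl a → M x → Rl x → M y → Rl y → E a x y → ¬ SgH M (j + 3) a (prl x y)) →
  (∀ a x, M a → Rl a → M x → Rl x → (∀ y, M y → Rl y → ¬ E a x y) →
    ∀ y, M y → Rl y → SgH M (j + 3) a (prl x y)) →
  (∀ a x y, M a → Rl a → M x → Rl x → M y → Rl y →
    (Dk M L j (prl (prl (kc 0) (prl a x)) y) ↔ ¬ E a x y)) →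
  UniH M (j + 3)

/-- PCS: absoluteness of the level `2` between models with the same ordinals -/
def T_PCS : Prop := ∀ W W' : V → Prop, ZFCm W → ZFCm W' → (∀ x, W x → W' x) →
  (∀ α : Ordinal.{0}, W' α.toZFSet → W α.toZFSet) → ∀ a x, W a → Rl a → W x → Rl x →
  (SgH W 2 a x ↔ SgH W' 2 a x)

/-! ## Translation to Baire space -/

/-- an injection of `ω` into `hf` -/
structure Th (θ : V) : Prop where
  fn : ZFSet.IsFunc om hf θ
  inj : ∀ m n : ℕ, app θ (nS m) = app θ (nS n) → m = n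

/-- `θ` in the first component, `e` in the second component -/
noncomputable def thp (θ e : V) : V := resS om fun n =>
  ZFSet.pair (app θ (nS (nn n).unpair.1)) (app e (nS (nn n).unpair.2))

/-- the finite sequence with the code `k`, translated by `θ` -/
noncomputable def JT (θ : V) (k : ℕ) : V := resS (nS (ln k)) fun i => app θ (nS (en k (nn i)))

/-- PTX: the translation of reals -/
def T_PTX : Prop :=
  (∀ θ, Th θ → ∀ x : ℕ → ℕ, Rl (hx θ x) ∧ ∀ n : ℕ, app (hx θ x) (nS n) = app θ (nS (x n))) ∧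
  (∀ M, ZFm M → ∀ θ, M θ → ∀ x : ℕ → ℕ, M (gr x) → M (hx θ x)) ∧
  (∀ e, IsE e → Th e) ∧
  (∀ θ e, Th θ → Th e → Th (thp θ e) ∧
    ∀ x y : ℕ → ℕ, hx (thp θ e) (pr x y) = prl (hx θ x) (hx e y)) ∧
  ∀ M, ZFm M → (∀ θ e, M θ → M e → M (thp θ e)) ∧
    ∀ x y : ℕ → ℕ, M (gr x) → M (gr y) → M (gr (pr x y))

/-- PTJ: the translation of finite sequences -/
def T_PTJ : Prop := Tm ZFm (fun _ v => JT (v 0) (nn (v 1))) ∧ ∀ θ, Th θ →
  (∀ k, ∃ m, Sq m (JT θ k)) ∧ (∀ k k', JT θ k = JT θ k' → k = k') ∧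
  ∀ (x : ℕ → ℕ) (m : ℕ), rs (hx θ x) (nS m) = JT θ (Encodable.encode ((List.range m).map x))

/-- PTY: the translation of codes of open sets, both directions -/
def T_PTY : Prop := ∀ M, ZFm M → ∀ θ, M θ → Th θ →
  (∀ a : ℕ → ℕ, M (gr a) → ∃ c, M c ∧ Rl c ∧ ∀ x : ℕ → ℕ, (Opn c (hx θ x) ↔ Op a x)) ∧
  ∀ c, M c → Rl c → ∃ a : ℕ → ℕ, M (gr a) ∧ ∀ x : ℕ → ℕ, (Opn c (hx θ x) ↔ Op a x)

/-- PTZ: the translation of codes, level `n` -/
def T_PTZ : Prop := ∀ M, ZFm M → ∀ e, M e → IsE e → ∀ (n : ℕ) (θ : V), M θ → Th θ →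
  (∀ a : ℕ → ℕ, M (gr a) → ∃ c, M c ∧ Rl c ∧
    ∀ x : ℕ → ℕ, M (gr x) → (SgH M n c (hx θ x) ↔ PUF.Sig M n a x)) ∧
  ∀ c, M c → Rl c → ∃ a : ℕ → ℕ, M (gr a) ∧
    ∀ x : ℕ → ℕ, M (gr x) → (SgH M n c (hx θ x) ↔ PUF.Sig M n a x)

/-- PTU: the translation of uniformization -/
def T_PTU : Prop := ∀ M, ZFm M → ∀ n : ℕ, UniH M n → PUF.PiUniformization M n

end SE.UZ
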