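import Pool.Agent.H72.UZ.TarY
import Pool.Agent.H45.UZ.TarP
import Pool.Agent.H1.UZ.PHB

/-! W3: images of towers. -/

set_option linter.unusedVariables false

open Ordinal Order Set
open scoped ZFSet

namespace SE.UZ

open SF

namespace W3

/-- facts on one isomorphism and a restriction -/
structure Fc (D : Cx) (l : ℕ) (S : ℕ → Prop) (π ρ ρ' s : V) : Prop where
  i : Isl D l S (rst s π) s (im π s)
  a : ∀ i ∈ s, app (rst s π) i = app π i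
  sub : im π s ⊆ ρ'
  nN : D.N (im π s)
  tr : Tr (im π s)
  c : Cld D.L (im π s)
  v : Vws S (im π s)
  b : im (inv π) (im π s) = s
  r : inv (rst s π) = rst (im π s) (inv π)
  m : ∀ h0 σ, His D s h0 σ → mvh (rst s π) h0 = mvh π h0 ∧ His D (im π s) (mvh π h0) σ
  e : ∀ h0 σ, His D s h0 σ → ∀ G, D.Gn ρ G → ∀ X y e,
    (Ent (mvh π h0) (gi D π ρ' G) X y e ↔ Ent h0 G X y e)
  x : ∀ G, D.Gn ρ G → (∀ X, RR D (im π s) (gi D π ρ' G) X ↔ RR D s G X) ∧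
    gs (gi D π ρ' G) (im π s) = gi D (rst s π) (im π s) (gs G s)

theorem fc (hPHA : T_PHA) (hPHB : T_PHB) (hQ1 : T_QI1) (hQ3 : T_QI3) (hBA : T_BA)
    (hBJ : T_BJ) (hBL : T_BL) {D : Cx} (hD : D.Ok) {l : ℕ} {S : ℕ → Prop} {π ρ ρ' s : V}
    (hS : Sl l S) (hI : Isl D l S π ρ ρ') (hs : D.N s) (hs' : s ⊆ ρ) (hT : Tr s) (hV : Vws S s) :
    Fc D l S π ρ ρ' s := by
  have zfm : ZFm D.N := hD.zfc.toZFCm.toZFm
  have hHN : ∀ x ∈ D.H, D.N x := (hBJ D hD).2.2.1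
  have h0 : ∀ ρ σ, His D ρ ∅ σ := fun ρ σ =>
    ⟨zfm.mempty, fun z hz => absurd hz (ZFSet.notMem_empty z)⟩
  have hN : D.N ρ := hHN _ hI.i.h
  obtain ⟨r1, r2, r3, r4, r5, -⟩ := (hQ1 D hD l S π ρ ρ' hS hI).2.2.2.2 s hs hs' hT hV
  have r6 := (hQ1 D hD l S _ _ _ hS r1).1
  have mm : ∀ h0 σ, His D s h0 σ → mvh (rst s π) h0 = mvh π h0 ∧ His D (im π s) (mvh π h0) σ := by
    intro h1 σ hh
    obtain ⟨-, -, -, -, c5, -⟩ := hPHB D hD l S π ρ ρ' hS hI ∅ σ (h0 ρ σ)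
    have e1 := ((c5 s hs hs' hT hV σ).2 h1 hh).1
    refine ⟨e1, ?_⟩
    rw [← e1]
    exact (hPHB D hD l S _ _ _ hS r1 h1 σ hh).1
  have hnim : D.N (im π s) := hHN _ r1.i.h'
  refine ⟨r1, r2, r3, hnim, (hBA.2.2.2.2.2.2 D.L _ r1.i.c').1, r1.i.c', r6.2.2.2.2.2.1.2, r4, r5,
    mm, fun h1 σ hh G hG X y e => ?_, fun G hG => ?_⟩
  · obtain ⟨c1, -, -, -, -, c6⟩ := hQ3 D hD l S π ρ ρ' hS hI G hG _ rfl
    obtain ⟨-, d2, -⟩ := c6 s hs hs' hT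
    have hgs : D.Gn s (gs G s) := ((hBL D hD ρ G hN hI.i.c hG).2 s hs hs' hT).1
    have h1' := (hPHA D hD s ρ h1 σ hs r1.i.c hN hI.i.c hs' hh).1 G hG
    have h2' := (hPHA D hD (im π s) ρ' (mvh π h1) σ hnim r1.i.c' (hHN _ hI.i.h') hI.i.c' r3
      (mm h1 σ hh).2).1 _ c1
    rw [(h1'.1 X y e).1, (h2'.1 X y e).1, d2, ← (mm h1 σ hh).1]
    exact (hPHB D hD l S _ _ _ hS r1 h1 σ hh).2.2.2.1 (gs G s) hgs X y e
  · obtain ⟨c1, -, -, -, -, c6⟩ := hQ3 D hD l S π ρ ρ' hS hI G hG _ rfl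
    obtain ⟨-, d2, d3, -⟩ := c6 s hs hs' hT
    exact ⟨d3, d2⟩

/-- every generic filter on the image is an image -/
theorem bk (hQ1 : T_QI1) (hQ3 : T_QI3) {D : Cx} (hD : D.Ok) {l : ℕ} {S : ℕ → Prop} {π ρ ρ' : V}
    (hS : Sl l S) (hI : Isl D l S π ρ ρ') (G' : V) (hG' : D.Gn ρ' G') :
    ∃ G, D.Gn ρ G ∧ gi D π ρ' G = G' := by
  obtain ⟨q1, -⟩ := hQ1 D hD l S π ρ ρ' hS hI
  obtain ⟨c1, -, c3, -⟩ := hQ3 D hD l S (inv π) ρ' ρ hS q1.2.2.2.2.2.2 G' hG' _ rfl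
  rw [q1.2.2.2.2.1] at c3
  exact ⟨_, c1, c3⟩

/-- definability of the images of towers -/
theorem tmT (hBBa : T_BBa) (hBBc : T_BBc) : Tm ZFm (fun _ v => resS (v 0) fun ξ =>
    ZFSet.pair (app (v 1) (ZFSet.pair (rst (app (v 2) (fst (app (v 4) ξ))) (v 3))
      (fst (app (v 4) ξ)))) (mvh (v 3) (snd (app (v 4) ξ)))) := by
  have t1 : Tm ZFm (fun _ v => app (v 5) (v 0)) := Tm.app (Tm.var 5) (Tm.var 0)
  exact Tm.resS (g := fun _ v => ZFSet.pair (app (v 2) (ZFSet.pair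
    (rst (app (v 3) (fst (app (v 5) (v 0)))) (v 4)) (fst (app (v 5) (v 0)))))
    (mvh (v 4) (snd (app (v 5) (v 0))))) (Tm.var 0)
    (Tm.pair (Tm.app (Tm.var 2) (Tm.pair (Tm.at2 hBBa.1 (Tm.app (Tm.var 3) (Tm.fst t1))
      (Tm.var 4)) (Tm.fst t1))) (Tm.at2 (PHB.tm hBBc) (Tm.var 4) (Tm.snd t1)))

theorem mem_im {π s j : V} : j ∈ im π s ↔ ∃ i ∈ s, app π i = j := mem_imS

end W3

theorem pf_W3 (hW3a : T_W3a) (hW0 : T_W0) (hPHA : T_PHA) (hPHB : T_PHB) (hQ1 : T_QI1)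
    (hQ3 : T_QI3) (hPWE : T_PWE) (hPOA : T_POA) (hLL : T_LL) (hRH : T_RH) (hBA : T_BA)
    (hBBa : T_BBa) (hBBc : T_BBc) (hBC : T_BC) (hBJ : T_BJ) (hBL : T_BL) (hTBa : T_TBa) :
    T_W3 := by
  intro D κ b am ok T tT' π ρ' hI
  have hD := am.ok
  have zfm : ZFm D.N := hD.zfc.toZFCm.toZFm
  have hHN : ∀ x ∈ D.H, D.N x := (hBJ D hD).2.2.1
  have hS : Sl b.l b.S := fun e he => ⟨(ok.sl e he).1, by have := (ok.sl e he).2; omega⟩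
  have hS' : Sl (b.l + 2) b.S' := by
    rintro e (he | he)
    · exact ⟨(ok.sl e he).1, by have := (ok.sl e he).2; omega⟩
    · subst he
      exact ⟨ok.l3, by omega⟩
  obtain ⟨w1, w2, w3, w4, w5, w6⟩ := hW0 D κ b am ok T tT'
  -- the cores
  have Kob : ∀ ξ ∈ κ, b.Obs (tK T ξ) := fun ξ hξ => (w4 ξ hξ).1
  have Kw : ∀ ξ ∈ κ, b.Wd D (b.rho D ξ) (tK T ξ) (tH T ξ) := fun ξ hξ => (w4 ξ hξ).2.1
  have Ks : ∀ ξ ∈ κ, b.u (tK T ξ) ⊆ b.ut κ T := fun ξ hξ => (w4 ξ hξ).2.2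
  have Kcs : ∀ ξ ∈ κ, CS D (b.u (tK T ξ)) := fun ξ hξ => ok.cs _ (Kob ξ hξ).o
  have KN : ∀ ξ ∈ κ, D.N (b.u (tK T ξ)) := fun ξ hξ => hHN _ (Kcs ξ hξ).h
  have KT : ∀ ξ ∈ κ, Tr (b.u (tK T ξ)) := fun ξ hξ => (hBA.2.2.2.2.2.2 D.L _ (Kcs ξ hξ).c).1
  have Kvw : ∀ ξ ∈ κ, ∀ j ∈ b.u (tK T ξ), b.Co j → vw j ⊆ b.u (tK T ξ) := fun ξ hξ j hj hc =>
    ((hPOA D κ am b ok _ (Kob ξ hξ)).2.2 j hj hc).2.1
  have KV : ∀ ξ ∈ κ, Vws b.S' (b.u (tK T ξ)) := by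
    intro ξ hξ i hi e he hk
    rcases he with he | he
    · exact ok.rk _ (Kob ξ hξ).o i hi e he hk
    · subst he
      exact Kvw ξ hξ i hi hk
  have Khis : ∀ ξ ∈ κ, His D (b.u (tK T ξ)) (tH T ξ) (b.rho D ξ) := fun ξ hξ =>
    ((hPWE b D _ _ _).1 (Kw ξ hξ)).wo.hs
  have Kle : ∀ ξ ∈ κ, ∀ η ∈ κ, ξ ∈ η → b.Le (tK T ξ) (tK T η) := fun ξ hξ η hη h =>
    (tT'.t0 ξ hξ η hη h).le
  have Ksub : ∀ ξ ∈ κ, ∀ η ∈ κ, ξ ∈ η → b.u (tK T ξ) ⊆ b.u (tK T η) := fun ξ hξ η hη h =>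
    (ok.leO _ _ (Kle ξ hξ η hη h)).2.2
  -- restrictions of `π`
  have F : ∀ ξ ∈ κ, W3.Fc D (b.l + 2) b.S' π (b.ut κ T) ρ' (b.u (tK T ξ)) := fun ξ hξ =>
    W3.fc hPHA hPHB hQ1 hQ3 hBA hBJ hBL hD hS' hI (KN ξ hξ) (Ks ξ hξ) (KT ξ hξ) (KV ξ hξ)
  have A := fun ξ hξ => hW3a D κ b am ok T tT' π ρ' hI ξ hξ _ rfl
  have Tu : ∀ ξ ∈ κ, b.u (b.T (rst (b.u (tK T ξ)) π) (tK T ξ)) = im π (b.u (tK T ξ)) :=
    fun ξ hξ => (ok.tr _ (Kob ξ hξ).o _ _ (A ξ hξ).1).2.1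
  -- values of the new tower
  have vT : ∀ ξ ∈ κ, app (b.tT κ π T) ξ = ZFSet.pair (b.T (rst (b.u (tK T ξ)) π) (tK T ξ))
      (mvh π (tH T ξ)) := fun ξ hξ => app_resS hξ
  have vK : ∀ ξ ∈ κ, tK (b.tT κ π T) ξ = b.T (rst (b.u (tK T ξ)) π) (tK T ξ) := fun ξ hξ => by
    unfold tK
    rw [vT ξ hξ, fst_pair]
    rfl
  have vH : ∀ ξ ∈ κ, tH (b.tT κ π T) ξ = mvh π (tH T ξ) := fun ξ hξ => by
    unfold tH
    rw [vT ξ hξ, snd_pair]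
    rfl
  -- pairs of cores
  have rr : ∀ ξ ∈ κ, ∀ η ∈ κ, b.u (tK T ξ) ⊆ b.u (tK T η) →
      rst (b.u (tK T ξ)) (rst (b.u (tK T η)) π) = rst (b.u (tK T ξ)) π := fun ξ hξ η hη hs =>
    hBC.2.2.2.2.2.2.1 _ _ _ hs
  have im' : ∀ η ∈ κ, ∀ s, s ⊆ b.u (tK T η) → im (rst (b.u (tK T η)) π) s = im π s :=
    fun η hη s hs => (hTBa.2.2.2.1 _ _ s fun i hi => (F η hη).a i (hs hi)).1
  have F2 : ∀ ξ ∈ κ, ∀ η ∈ κ, b.u (tK T ξ) ⊆ b.u (tK T η) → W3.Fc D (b.l + 2) b.S'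
      (rst (b.u (tK T η)) π) (b.u (tK T η)) (im π (b.u (tK T η))) (b.u (tK T ξ)) :=
    fun ξ hξ η hη hs => W3.fc hPHA hPHB hQ1 hQ3 hBA hBJ hBL hD hS' (F η hη).i (KN ξ hξ) hs
      (KT ξ hξ) (KV ξ hξ)
  have mh : ∀ ξ ∈ κ, ∀ η ∈ κ, b.u (tK T ξ) ⊆ b.u (tK T η) →
      mvh (rst (b.u (tK T η)) π) (tH T ξ) = mvh π (tH T ξ) := fun ξ hξ η hη hs => by
    rw [← ((F2 ξ hξ η hη hs).m _ _ (Khis ξ hξ)).1, rr ξ hξ η hη hs,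
      ((F ξ hξ).m _ _ (Khis ξ hξ)).1]
  -- transport of entries and reals from `K_η`
  have E2 : ∀ ξ ∈ κ, ∀ η ∈ κ, b.u (tK T ξ) ⊆ b.u (tK T η) → ∀ G, D.Gn (b.u (tK T η)) G →
      (∀ X y e, Ent (mvh π (tH T ξ)) (gi D (rst (b.u (tK T η)) π) (im π (b.u (tK T η))) G) X y e ↔
        Ent (tH T ξ) G X y e) ∧
      (∀ X, RR D (im π (b.u (tK T ξ))) (gi D (rst (b.u (tK T η)) π) (im π (b.u (tK T η))) G) X ↔
        RR D (b.u (tK T ξ)) G X) ∧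
      gs (gi D (rst (b.u (tK T η)) π) (im π (b.u (tK T η))) G) (im π (b.u (tK T ξ))) =
        gi D (rst (b.u (tK T ξ)) π) (im π (b.u (tK T ξ))) (gs G (b.u (tK T ξ))) := by
    intro ξ hξ η hη hs G hG
    have f := F2 ξ hξ η hη hs
    refine ⟨fun X y e => ?_, fun X => ?_, ?_⟩
    · rw [← mh ξ hξ η hη hs]
      exact f.e _ _ (Khis ξ hξ) G hG X y e
    · rw [← im' η hη _ hs]
      exact (f.x G hG).1 X
    · have := (f.x G hG).2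
      rw [im' η hη _ hs, rr ξ hξ η hη hs] at this
      exact this
  have B : ∀ η ∈ κ, ∀ G', D.Gn (im π (b.u (tK T η))) G' → ∃ G, D.Gn (b.u (tK T η)) G ∧
      gi D (rst (b.u (tK T η)) π) (im π (b.u (tK T η))) G = G' := fun η hη G' hG' =>
    W3.bk hQ1 hQ3 hD hS' (F η hη).i G' hG'
  have oκ : ∀ ξ ∈ κ, insert ξ ξ ∈ κ := am.suc
  have sr : ∀ ξ ∈ κ, b.u (tK T ξ) ⊆ b.u (tK T ξ) := fun ξ _ x hx => hx
  have utE : b.ut κ (b.tT κ π T) = ρ' := by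
    rw [← (hQ1 D hD _ _ π _ _ hS' hI).1.2.2.1]
    unfold BS.ut
    ext i
    rw [ZFSet.mem_sUnion, W3.mem_im]
    constructor
    · rintro ⟨z, hz, hi⟩
      obtain ⟨ξ, hξ, rfl⟩ := mem_imS.1 hz
      rw [vK ξ hξ, Tu ξ hξ] at hi
      obtain ⟨j, hj, rfl⟩ := W3.mem_im.1 hi
      exact ⟨j, (w3 j).2 ⟨ξ, hξ, hj⟩, rfl⟩
    · rintro ⟨j, hj, rfl⟩
      obtain ⟨ξ, hξ, hj⟩ := (w3 j).1 hj
      refine ⟨_, mem_imS.2 ⟨ξ, hξ, rfl⟩, ?_⟩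
      rw [vK ξ hξ, Tu ξ hξ]
      exact W3.mem_im.2 ⟨j, hj, rfl⟩
  have eqT : b.tT κ π T = resS κ (app (b.tT κ π T)) :=
    resS_congr fun ξ hξ => (vT ξ hξ).symm
  refine ⟨⟨?_, eqT, ?_, ?_, ?_, ?_, ?_⟩, utE, ?_, ?_⟩
  · -- in the ground model
    have tN : D.N T := tT'.n
    exact (W3.tmT hBBa hBBc).1 D.N zfm (cons κ (cons b.tr (cons b.U (cons π (cons T fun _ => T)))))
      (In.cons (In.cons (In.cons (In.cons (In.cons (fun _ => tN) tN) hI.i.n) ok.nU) ok.nT)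
        (hHN _ am.kH))
  · -- worlds
    intro ξ hξ
    rw [vT ξ hξ]
    exact ⟨by rw [fst_pair, snd_pair], by rw [fst_pair, snd_pair]; exact (A ξ hξ).2.2.2⟩
  · -- times
    intro ξ hξ j hj hc
    rw [vK ξ hξ, Tu ξ hξ] at hj
    obtain ⟨i, hi, rfl⟩ := W3.mem_im.1 hj
    have hci : b.Co i := by
      have := (hI.k i (Ks ξ hξ hi) b.l ok.l3 (by omega)).2 hc
      exact this
    rw [((A ξ hξ).2.2.1 i hi hci).2.1]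
    exact tT'.tm ξ hξ i hi hci
  · -- t0
    intro ξ hξ η hη hξη
    have hs := Ksub ξ hξ η hη hξη
    unfold BS.Lr
    rw [vT ξ hξ, vT η hη]
    simp only [fst_pair, snd_pair]
    constructor
    · have := (ok.tr _ (Kob η hη).o _ _ (A η hη).1).2.2.2 _ (Kle ξ hξ η hη hξη)
      rw [rr ξ hξ η hη hs] at this
      exact this
    · intro G' hG' X hX y e
      rw [Tu η hη] at hG'
      rw [Tu ξ hξ] at hX
      obtain ⟨G, hG, rfl⟩ := B η hη G' hG'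
      obtain ⟨e1, e2, e3⟩ := E2 ξ hξ η hη hs G hG
      rw [e1 X y e, (E2 η hη η hη (sr η hη) G hG).1 X y e]
      exact (tT'.t0 ξ hξ η hη hξη).e G hG X ((e2 X).1 hX) y e
  · -- t1
    intro ξ hξ ζ hζ η hη h1 h2
    have hs : b.u (tK T ξ) ⊆ b.u (tK T η) :=
      (w5 ξ hξ η hη fun x hx => ((isOrd_iff κ).1 am.ord).2 η hη ζ h2 (h1 hx)).2
    rw [vT ξ hξ, vT η hη]
    unfold BS.R1
    simp only [fst_pair, snd_pair]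
    intro G' hG' X y hX hy
    rw [Tu η hη] at hG'
    rw [Tu ξ hξ] at hX hy
    obtain ⟨G, hG, rfl⟩ := B η hη G' hG'
    obtain ⟨e1, e2, e3⟩ := E2 ξ hξ η hη hs G hG
    rw [(E2 η hη η hη (sr η hη) G hG).1 X y]
    exact tT'.t1 ξ hξ ζ hζ η hη h1 h2 G hG X y ((e2 X).1 hX) ((e2 y).1 hy)
  · -- t2
    intro ξ hξ
    have hη := oκ ξ hξ
    have hs := Ksub ξ hξ _ hη (ZFSet.mem_insert ξ ξ)
    rw [vT ξ hξ, vT _ hη]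
    unfold BS.R2
    simp only [fst_pair, snd_pair]
    intro G' hG' X hX hd hn hp
    rw [Tu _ hη] at hG'
    rw [Tu ξ hξ] at hX hn
    obtain ⟨G, hG, rfl⟩ := B _ hη G' hG'
    obtain ⟨e1, e2, e3⟩ := E2 ξ hξ _ hη hs G hG
    have hX' := (e2 X).1 hX
    have hGs : D.Gn (b.u (tK T ξ)) (gs G (b.u (tK T ξ))) :=
      ((hBL D hD _ G (KN _ hη) (Kcs _ hη).c hG).2 _ (KN ξ hξ) hs (KT ξ hξ)).1
    have hsi : b.SI D (b.rho D ξ) (rst (b.u (tK T ξ)) π) (tK T ξ) (im π (b.u (tK T ξ))) := by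
      refine ⟨(A ξ hξ).1, Kob ξ hξ, fun j hj hc => ?_⟩
      obtain ⟨a1, a2, a3⟩ := (A ξ hξ).2.2.1 j hj hc
      rw [(F ξ hξ).a j hj, a2, a3, im' ξ hξ _ (Kvw ξ hξ j hj hc)]
      exact ⟨rfl, rfl⟩
    have hw := (A ξ hξ).2.2.2
    rw [← mh ξ hξ ξ hξ (sr ξ hξ)] at hw
    have hV := (((hLL D κ b (b.rho D ξ) ⟨am, ok, ((hRH D κ b am ok).1 ξ hξ).2.2⟩).1).t _ _ _ _
      (Kw ξ hξ) hsi hw _ hGs X).2.1
    rw [mh ξ hξ ξ hξ (sr ξ hξ), ← e3] at hV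
    obtain ⟨y, hy⟩ := tT'.t2 ξ hξ G hG X hX' (fun ⟨y, e, he⟩ => hd ⟨y, e, (e1 X y e).2 he⟩)
      (hV.2 hn) fun ⟨i, hi, hk, hx⟩ => hp (by
        refine ⟨app π i, ?_, ?_, ?_⟩
        · rw [Tu ξ hξ]
          exact W3.mem_im.2 ⟨i, hi, rfl⟩
        · exact (hI.k i (Ks ξ hξ hi) (b.l + 2) (by have := ok.l3; omega) le_rfl).1 hk
        · have q5 := ((hQ3 D hD _ _ _ _ _ hS' (F _ hη).i G hG _ rfl).2.2.2.2.1 i (hs hi)).2.2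
          rw [(F _ hη).a i (hs hi)] at q5
          rw [q5]
          exact hx)
    exact ⟨y, ((E2 _ hη _ hη (sr _ hη) G hG).1 X y _).2 hy⟩
  · -- the inverse
    have hTf := tT'.f
    rw [hTf]
    show resS κ _ = resS κ _
    refine resS_congr fun ξ hξ => ?_
    rw [← hTf, vK ξ hξ, vH ξ hξ, Tu ξ hξ, ← (F ξ hξ).r,
      (ok.tr _ (Kob ξ hξ).o _ _ (A ξ hξ).1).2.2.1]
    have Iv := (hQ1 D hD _ _ π _ _ hS' hI).1.2.2.2.2.2.2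
    have f' := W3.fc hPHA hPHB hQ1 hQ3 hBA hBJ hBL hD hS' Iv (F ξ hξ).nN (F ξ hξ).sub
      (F ξ hξ).tr (F ξ hξ).v
    rw [← (f'.m _ _ ((F ξ hξ).m _ _ (Khis ξ hξ)).2).1, ← (F ξ hξ).r,
      ← ((F ξ hξ).m _ _ (Khis ξ hξ)).1,
      (hPHB D hD _ _ _ _ _ hS' (F ξ hξ).i _ _ (Khis ξ hξ)).2.1]
    exact (tT'.w ξ hξ).pr.symm
  · -- decided reals
    intro G hG X
    unfold Dct
    refine exists_congr fun ξ => and_congr_right fun hξ => ?_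
    rw [vH ξ hξ]
    unfold Dcc
    exact exists_congr fun y => exists_congr fun e => (F ξ hξ).e _ _ (Khis ξ hξ) G hG X y e

end SE.UZ
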