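import Pool.Agent.H1.UZ.W3

/-! W3b: images of towers and the order. -/

set_option linter.unusedVariables false

open Ordinal Order Set
open scoped ZFSet

namespace SE.UZ

open SF

theorem pf_W3b (hW3 : T_W3) (hW3a : T_W3a) (hW0 : T_W0) (hW1 : T_W1) (hPHA : T_PHA)
    (hPHB : T_PHB) (hQ1 : T_QI1) (hQ1i : T_QI1i) (hQ3 : T_QI3) (hPWE : T_PWE) (hPOA : T_POA)
    (hBA : T_BA) (hBC : T_BC) (hBJ : T_BJ) (hBL : T_BL) (hTBa : T_TBa) : T_W3b := by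
  intro D κ b am ok
  have hD := am.ok
  have zfm : ZFm D.N := hD.zfc.toZFCm.toZFm
  have hHN : ∀ x ∈ D.H, D.N x := (hBJ D hD).2.2.1
  have hS' : Sl (b.l + 2) b.S' := by
    rintro e (he | he)
    · exact ⟨(ok.sl e he).1, by have := (ok.sl e he).2; omega⟩
    · subst he
      exact ⟨ok.l3, by omega⟩
  -- the cores of a tower
  have Kob : ∀ T, b.Tw D κ T → ∀ ξ ∈ κ, b.Obs (tK T ξ) := fun T h ξ hξ =>
    ((hW0 D κ b am ok T h).2.2.2.1 ξ hξ).1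
  have Kw : ∀ T, b.Tw D κ T → ∀ ξ ∈ κ, b.Wd D (b.rho D ξ) (tK T ξ) (tH T ξ) := fun T h ξ hξ =>
    ((hW0 D κ b am ok T h).2.2.2.1 ξ hξ).2.1
  have Ks : ∀ T, b.Tw D κ T → ∀ ξ ∈ κ, b.u (tK T ξ) ⊆ b.ut κ T := fun T h ξ hξ =>
    ((hW0 D κ b am ok T h).2.2.2.1 ξ hξ).2.2
  have Kcs : ∀ T, b.Tw D κ T → ∀ ξ ∈ κ, CS D (b.u (tK T ξ)) := fun T h ξ hξ =>
    ok.cs _ (Kob T h ξ hξ).o
  have KN : ∀ T, b.Tw D κ T → ∀ ξ ∈ κ, D.N (b.u (tK T ξ)) := fun T h ξ hξ =>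
    hHN _ (Kcs T h ξ hξ).h
  have KT : ∀ T, b.Tw D κ T → ∀ ξ ∈ κ, Tr (b.u (tK T ξ)) := fun T h ξ hξ =>
    (hBA.2.2.2.2.2.2 D.L _ (Kcs T h ξ hξ).c).1
  have KV : ∀ T, b.Tw D κ T → ∀ ξ ∈ κ, Vws b.S' (b.u (tK T ξ)) := by
    intro T h ξ hξ i hi e he hk
    rcases he with he | he
    · exact ok.rk _ (Kob T h ξ hξ).o i hi e he hk
    · subst he
      exact ((hPOA D κ am b ok _ (Kob T h ξ hξ)).2.2 i hi hk).2.1
  have UV : ∀ T, b.Tw D κ T → Vws b.S' (b.ut κ T) := by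
    intro T h i hi e he hk
    obtain ⟨ξ, hξ, hi⟩ := ((hW0 D κ b am ok T h).2.2.1 i).1 hi
    exact fun x hx => Ks T h ξ hξ (KV T h ξ hξ i hi e he hk hx)
  have Khis : ∀ T, b.Tw D κ T → ∀ ξ ∈ κ, His D (b.u (tK T ξ)) (tH T ξ) (b.rho D ξ) :=
    fun T h ξ hξ => ((hPWE b D _ _ _).1 (Kw T h ξ hξ)).wo.hs
  have Ucs : ∀ T, b.Tw D κ T → CS D (b.ut κ T) := fun T h => (hW0 D κ b am ok T h).2.1
  have UN : ∀ T, b.Tw D κ T → D.N (b.ut κ T) := fun T h => hHN _ (Ucs T h).h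
  have UT : ∀ T, b.Tw D κ T → Tr (b.ut κ T) := fun T h =>
    (hBA.2.2.2.2.2.2 D.L _ (Ucs T h).c).1
  constructor
  · intro T hT
    have hI : Isl D (b.l + 2) b.S' (idm (b.ut κ T)) (b.ut κ T) (b.ut κ T) :=
      (hQ1i D hD _ _ _ hS' (Ucs T hT) (UV T hT)).1
    have hTf := hT.f
    show resS κ _ = T
    rw [hTf]
    refine resS_congr fun ξ hξ => ?_
    rw [← hTf]
    have f := W3.fc hPHA hPHB hQ1 hQ3 hBA hBJ hBL hD hS' hI (KN T hT ξ hξ) (Ks T hT ξ hξ)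
      (KT T hT ξ hξ) (KV T hT ξ hξ)
    have hid : Idn (idm (b.ut κ T)) (b.u (tK T ξ)) := fun i hi =>
      (hTBa.2.2.2.2.2 _).1 i (Ks T hT ξ hξ hi)
    obtain ⟨r1, r2⟩ := ((hQ1 D hD _ _ _ _ _ hS' hI).2.2.2.2 _ (KN T hT ξ hξ) (Ks T hT ξ hξ)
      (KT T hT ξ hξ) (KV T hT ξ hξ)).2.2.2.2.2 hid
    have hI' : Isl D (b.l + 2) b.S' (idm (b.u (tK T ξ))) (b.u (tK T ξ)) (b.u (tK T ξ)) :=
      (hQ1i D hD _ _ _ hS' (Kcs T hT ξ hξ) (KV T hT ξ hξ)).1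
    rw [← (f.m _ _ (Khis T hT ξ hξ)).1, r1, ok.trI _ (Kob T hT ξ hξ).o,
      (hPHB D hD _ _ _ _ _ hS' hI' _ _ (Khis T hT ξ hξ)).2.2.2.2.2 (hTBa.2.2.2.2.2 _).1]
    exact (hT.w ξ hξ).pr.symm
  · intro C T hCT π ρ' hI
    have hC := hCT.t
    have hT := hCT.t'
    obtain ⟨su, sl⟩ := (hW1 D κ b am ok).2.2.2.1 C T hCT
    have fC := W3.fc hPHA hPHB hQ1 hQ3 hBA hBJ hBL hD hS' hI (UN C hC) su (UT C hC) (UV C hC)
    have hIC : Isl D (b.l + 2) b.S' (rst (b.ut κ C) π) (b.ut κ C) (im π (b.ut κ C)) := fC.i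
    obtain ⟨c1, c2, -⟩ := hW3 D κ b am ok C hC _ _ hIC
    obtain ⟨t1, t2, -⟩ := hW3 D κ b am ok T hT _ _ hI
    -- values
    have imC : ∀ s, s ⊆ b.ut κ C → im (rst (b.ut κ C) π) s = im π s := fun s hs =>
      (hTBa.2.2.2.1 _ _ s fun i hi => fC.a i (hs hi)).1
    have AC := fun ξ hξ => hW3a D κ b am ok C hC _ _ hIC ξ hξ _ rfl
    have AT := fun ξ hξ => hW3a D κ b am ok T hT _ _ hI ξ hξ _ rfl
    have uC : ∀ ξ ∈ κ, b.u (b.T (rst (b.u (tK C ξ)) (rst (b.ut κ C) π)) (tK C ξ)) =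
        im π (b.u (tK C ξ)) := fun ξ hξ => by
      rw [(ok.tr _ (Kob C hC ξ hξ).o _ _ (AC ξ hξ).1).2.1, imC _ (Ks C hC ξ hξ)]
    have uT : ∀ ξ ∈ κ, b.u (b.T (rst (b.u (tK T ξ)) π) (tK T ξ)) = im π (b.u (tK T ξ)) :=
      fun ξ hξ => (ok.tr _ (Kob T hT ξ hξ).o _ _ (AT ξ hξ).1).2.1
    have vT : ∀ π T, ∀ ξ ∈ κ, app (b.tT κ π T) ξ =
        ZFSet.pair (b.T (rst (b.u (tK T ξ)) π) (tK T ξ)) (mvh π (tH T ξ)) :=
      fun π T ξ hξ => app_resS hξ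
    have sub : ∀ ξ ∈ κ, b.u (tK C ξ) ⊆ b.u (tK T ξ) := fun ξ hξ => (ok.leO _ _ (sl ξ hξ)).2.2
    refine ⟨c1, t1, fun ξ hξ => ?_, fun ξ hξ => ?_⟩
    · rw [c2]
      unfold tK
      rw [vT _ _ ξ hξ, vT _ _ ξ hξ, fst_pair, fst_pair, uC ξ hξ, uT ξ hξ]
      have hinj := (hQ1 D hD _ _ π _ _ hS' hI).1.2.1
      have huu := hCT.u ξ hξ
      ext j
      rw [ZFSet.mem_inter, W3.mem_im, W3.mem_im, W3.mem_im]
      constructor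
      · rintro ⟨i, hi, rfl⟩
        exact ⟨⟨i, sub ξ hξ hi, rfl⟩, ⟨i, Ks C hC ξ hξ hi, rfl⟩⟩
      · rintro ⟨⟨i, hi, rfl⟩, ⟨i', hi', he⟩⟩
        have : i' = i := hinj i' (su hi') i (Ks T hT ξ hξ hi) he
        subst this
        refine ⟨i', ?_, rfl⟩
        rw [huu]
        exact ZFSet.mem_inter.2 ⟨hi, hi'⟩
    · unfold BS.Lr
      rw [vT _ _ ξ hξ, vT _ _ ξ hξ]
      simp only [fst_pair, snd_pair]
      have e1 : rst (b.u (tK C ξ)) (rst (b.ut κ C) π) = rst (b.u (tK C ξ)) π :=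
        hBC.2.2.2.2.2.2.1 _ _ _ (Ks C hC ξ hξ)
      have e2 : rst (b.u (tK C ξ)) (rst (b.u (tK T ξ)) π) = rst (b.u (tK C ξ)) π :=
        hBC.2.2.2.2.2.2.1 _ _ _ (sub ξ hξ)
      have f := W3.fc hPHA hPHB hQ1 hQ3 hBA hBJ hBL hD hS' hI (KN T hT ξ hξ) (Ks T hT ξ hξ)
        (KT T hT ξ hξ) (KV T hT ξ hξ)
      have f0 := W3.fc hPHA hPHB hQ1 hQ3 hBA hBJ hBL hD hS' hI (KN C hC ξ hξ)
        (fun x hx => Ks T hT ξ hξ (sub ξ hξ hx)) (KT C hC ξ hξ) (KV C hC ξ hξ)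
      have f2 := W3.fc hPHA hPHB hQ1 hQ3 hBA hBJ hBL hD hS' f.i (KN C hC ξ hξ) (sub ξ hξ)
        (KT C hC ξ hξ) (KV C hC ξ hξ)
      have f3 := W3.fc hPHA hPHB hQ1 hQ3 hBA hBJ hBL hD hS' f.i (KN T hT ξ hξ)
        (fun _ h => h) (KT T hT ξ hξ) (KV T hT ξ hξ)
      have fCC := W3.fc hPHA hPHB hQ1 hQ3 hBA hBJ hBL hD hS' hIC (KN C hC ξ hξ)
        (Ks C hC ξ hξ) (KT C hC ξ hξ) (KV C hC ξ hξ)
      have hCh := Khis C hC ξ hξ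
      have hTh := Khis T hT ξ hξ
      have m1 : mvh (rst (b.ut κ C) π) (tH C ξ) = mvh π (tH C ξ) := by
        rw [← (fCC.m _ _ hCh).1, e1, (f0.m _ _ hCh).1]
      have m2 : mvh (rst (b.u (tK T ξ)) π) (tH C ξ) = mvh π (tH C ξ) := by
        rw [← (f2.m _ _ hCh).1, e2, (f0.m _ _ hCh).1]
      have m3 : mvh (rst (b.u (tK T ξ)) π) (tH T ξ) = mvh π (tH T ξ) := (f.m _ _ hTh).1
      constructor
      · rw [e1]
        have := (ok.tr _ (Kob T hT ξ hξ).o _ _ (AT ξ hξ).1).2.2.2 _ (sl ξ hξ)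
        rw [e2] at this
        exact this
      · intro G' hG' X hX y e
        rw [uT ξ hξ] at hG'
        rw [uC ξ hξ] at hX
        obtain ⟨G, hG, rfl⟩ := W3.bk hQ1 hQ3 hD hS' f.i G' hG'
        have x1 := (f2.x G hG).1 X
        rw [(hTBa.2.2.2.1 _ π _ fun i hi => f.a i (sub ξ hξ hi)).1] at x1
        have x2 := f2.e _ _ hCh G hG X y e
        have x3 := f3.e _ _ hTh G hG X y e
        rw [m2] at x2
        rw [m3] at x3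
        rw [m1, x2, x3]
        exact (hCT.le ξ hξ).e G hG X (x1.1 hX) y e

end SE.UZ
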