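import Pool.Agent.H38.UZ.TarZ

/-! X1: generic families of disjoint copies of worlds. -/

set_option linter.unusedVariables false

open Ordinal Order Set
open scoped ZFSet

namespace SE.UZ

open SF

namespace X1

/-- the set of the choices: pairs `((t, a), (p', r))` with `a` the restriction of `r` -/
noncomputable def ch (U E : V) : V := imS E fun z =>
  ZFSet.pair (ZFSet.pair (fst z) (rst U (snd (snd z)))) (snd z)

theorem tmch (hBBa : T_BBa) : Tm ZFm (fun _ v => ch (v 0) (v 1)) :=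
  Tm.image (g := fun _ v => ZFSet.pair (ZFSet.pair (fst (v 0)) (rst (v 1) (snd (snd (v 0)))))
    (snd (v 0))) (Tm.var 1) (Tm.pair (Tm.pair (Tm.fst (Tm.var 0))
      (Tm.at2 hBBa.1 (Tm.var 1) (Tm.snd (Tm.snd (Tm.var 0))))) (Tm.snd (Tm.var 0)))

theorem mem_ch {U E z : V} : z ∈ ch U E ↔ ∃ x ∈ E,
    ZFSet.pair (ZFSet.pair (fst x) (rst U (snd (snd x)))) (snd x) = z := mem_imS

theorem tm1 : Tm ZFm (fun _ v => resS (v 0) fun w => fst (fst (app (v 1) (snd w)))) :=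
  Tm.resS (g := fun _ v => fst (fst (app (v 2) (snd (v 0))))) (Tm.var 0)
    (Tm.fst (Tm.fst (Tm.app (Tm.var 2) (Tm.snd (Tm.var 0)))))

theorem tm2 : Tm ZFm (fun _ v => resS (v 0) fun w => snd (fst (app (v 1) (snd w)))) :=
  Tm.resS (g := fun _ v => snd (fst (app (v 2) (snd (v 0))))) (Tm.var 0)
    (Tm.snd (Tm.fst (Tm.app (Tm.var 2) (Tm.snd (Tm.var 0)))))

theorem tm3 : Tm ZFm (fun _ v => resS (v 0) fun w => ZFSet.pair (app (v 1) w) (app (v 2) w)) :=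
  Tm.resS (g := fun _ v => ZFSet.pair (app (v 2) (v 0)) (app (v 3) (v 0))) (Tm.var 0)
    (Tm.pair (Tm.app (Tm.var 2) (Tm.var 0)) (Tm.app (Tm.var 3) (Tm.var 0)))

theorem tm4 (hBBc : T_BBc) : Tm ZFm (fun _ v => imS om fun n =>
    mv (app (v 0) (ZFSet.pair n (v 1))) (v 2)) :=
  Tm.image (g := fun _ v => mv (app (v 1) (ZFSet.pair (v 0) (v 2))) (v 3)) Tm.om
    (Tm.at2 hBBc.2.2.1 (Tm.app (Tm.var 1) (Tm.pair (Tm.var 0) (Tm.var 2))) (Tm.var 3))

end X1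

theorem pf_X1 (hCPF : T_CPF) (hCHO : T_CHO) (hLL : T_LL) (hRH : T_RH) (hPWE : T_PWE) (hQC3 : T_QC3)
    (hQ1 : T_QI1) (hQ2 : T_QI2) (hBA : T_BA) (hBBa : T_BBa) (hBBc : T_BBc) (hBC : T_BC)
    (hBD : T_BD) (hBJ : T_BJ) (hBR : T_BR) (hTBa : T_TBa) : T_X1 := by
  intro D κ b am ok ξ hξ q hq htm J E hE Z hZ
  have hD := am.ok
  have zfm : ZFm D.N := hD.zfc.toZFCm.toZFm
  have hHN : ∀ x ∈ D.H, D.N x := (hBJ D hD).2.2.1
  have hHt : D.H.IsTransitive := (hBJ D hD).2.1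
  have hS : Sl b.l b.S := fun e he => ⟨(ok.sl e he).1, by have := (ok.sl e he).2; omega⟩
  obtain ⟨ρL, ρc, ρN⟩ := (hRH D κ b am ok).1 ξ hξ
  have hξH : ξ ∈ D.H := hHt.mem_trans hξ am.kH
  have cx : Ctx D κ b (b.rho D ξ) := ⟨am, ok, ρN⟩
  -- the labels of the base
  set U := b.u (fst q) with hU
  have qob : fst q ∈ b.Ob := ((hPWE b D _ _ _).1 hq.w).wo.o.o
  have Ucs : CS D U := ok.cs _ qob
  have UN : D.N U := hHN _ Ucs.h
  have UT : Tr U := (hBA.2.2.2.2.2.2 D.L _ Ucs.c).1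
  -- choices
  have chN : D.N (X1.ch U E) := (X1.tmch hBBa).1 D.N zfm (cons U (cons E fun _ => E))
    (In.cons (In.cons (fun _ => hE.n) hE.n) UN)
  have AN : D.N (dm (X1.ch U E)) :=
    (Tm.dm (Tm.var 0)).1 D.N zfm (fun _ => X1.ch U E) fun _ => chN
  obtain ⟨c, cN, cf, hc⟩ := hCHO D hD (dm (X1.ch U E)) (X1.ch U E) AN chN fun i hi => by
    obtain ⟨x, hx⟩ := mem_dm.1 hi
    exact ⟨x, hx⟩
  have hc' : ∀ t a, ZFSet.pair t a ∈ dm (X1.ch U E) → ∃ p1 r1, app c (ZFSet.pair t a) =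
      ZFSet.pair p1 r1 ∧ ZFSet.pair t (ZFSet.pair p1 r1) ∈ E ∧ rst U r1 = a := by
    intro t a h
    obtain ⟨x, hx, hx'⟩ := X1.mem_ch.1 (hc _ h)
    obtain ⟨t', ht', p', r', rfl, -⟩ := hE.e x hx
    rw [fst_pair, snd_pair, snd_pair] at hx'
    obtain ⟨h1, h2⟩ := ZFSet.pair_injective hx'
    obtain ⟨rfl, rfl⟩ := ZFSet.pair_injective h1
    exact ⟨p', r', h2.symm, hx, rfl⟩
  have hA : ∀ t p' r, ZFSet.pair t (ZFSet.pair p' r) ∈ E →
      ZFSet.pair t (rst U r) ∈ dm (X1.ch U E) ∧ t ∈ J ∧ b.Wr D ξ p' ∧ b.Lr D ξ q p' ∧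
        r ∈ D.P (b.u (fst p')) := by
    intro t p' r h
    refine ⟨mem_dm.2 ⟨ZFSet.pair p' r, X1.mem_ch.2 ⟨_, h, by simp only [fst_pair, snd_pair]⟩⟩, ?_⟩
    obtain ⟨t', ht', p1, r1, h1, h2, h3, h4⟩ := hE.e _ h
    obtain ⟨rfl, h5⟩ := ZFSet.pair_injective h1
    obtain ⟨rfl, rfl⟩ := ZFSet.pair_injective h5
    exact ⟨ht', h2, h3, h4⟩
  -- the index set
  have zfH : ZFm (· ∈ D.H) := hD.zfH
  have prH : ∀ x ∈ D.H, ∀ y ∈ D.H, ZFSet.prod x y ∈ D.H := fun x hx y hy =>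
    (Tm.prod (Tm.var 0) (Tm.var 1)).1 (· ∈ D.H) zfH (cons x fun _ => y) (In.cons (fun _ => hy) hx)
  have PUH : D.P U ∈ D.H := (hBR D hD).2.2.2.2.1 U Ucs.h |>.1
  have omH : om ∈ D.H := (hBR D hD).2.2.2.2.2.2.2.2.1
  have AH : dm (X1.ch U E) ∈ D.H := by
    refine (hBR D hD).1 _ _ AN (prH J hE.h _ PUH) fun z hz => ?_
    obtain ⟨y, hy⟩ := mem_dm.1 hz
    obtain ⟨x, hx, hx'⟩ := X1.mem_ch.1 hy
    obtain ⟨t', ht', p', r', rfl, h2, h3, h4⟩ := hE.e x hx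
    rw [fst_pair, snd_pair, snd_pair] at hx'
    obtain ⟨h1, -⟩ := ZFSet.pair_injective hx'
    rw [← h1]
    exact ZFSet.mem_prod.2 ⟨_, ht', _, (hBD.2.2.1 D.L (b.u (fst p')) U r' h4
      fun i hi _ => UT i hi).1, rfl⟩
  set I1 := ZFSet.prod om (dm (X1.ch U E)) with hI1
  have I1H : I1 ∈ D.H := prH _ omH _ AH
  have I1N : D.N I1 := hHN _ I1H
  have EoN := X1.tm1.1 D.N zfm (cons I1 (cons c fun _ => c)) (In.cons (In.cons (fun _ => cN) cN) I1N)
  have EhN := X1.tm2.1 D.N zfm (cons I1 (cons c fun _ => c)) (In.cons (In.cons (fun _ => cN) cN) I1N)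
  set Eo := resS I1 fun w => fst (fst (app c (snd w))) with hEo
  set Eh := resS I1 fun w => snd (fst (app c (snd w))) with hEh
  have hv : ∀ v ∈ I1, b.Wd D (b.rho D ξ) (app Eo v) (app Eh v) ∧
      b.LW D (b.rho D ξ) (fst q) (snd q) (app Eo v) (app Eh v) := by
    intro v hv
    rw [hEo, hEh, app_resS hv, app_resS hv]
    obtain ⟨n, hn, x, hx, rfl⟩ := ZFSet.mem_prod.1 hv
    obtain ⟨y, hy⟩ := mem_dm.1 hx
    obtain ⟨z, hz, hz'⟩ := X1.mem_ch.1 hy
    obtain ⟨h1, -⟩ := ZFSet.pair_injective hz'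
    rw [← h1] at hx ⊢
    obtain ⟨p1, r1, e1, e2, e3⟩ := hc' _ _ hx
    rw [snd_pair, e1, fst_pair]
    obtain ⟨-, -, h4, h5, -⟩ := hA _ _ _ e2
    exact ⟨h4.w, h5⟩
  obtain ⟨P, B', h', PN, BN, hN, hP, hdis⟩ := hCPF D κ b (b.rho D ξ) cx
    ((hLL D κ b _ cx).1) (fst q) (snd q) Z I1 Eo Eh ξ hq.w hZ I1H EoN EhN hv
    (Or.inr ⟨hξH, ρL, ρc.symm⟩)
  have F1N := X1.tm3.1 D.N zfm (cons I1 (cons B' (cons h' fun _ => h')))
    (In.cons (In.cons (In.cons (fun _ => hN) hN) BN) I1N)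
  have F1v : ∀ u ∈ I1, app (resS I1 fun w => ZFSet.pair (app B' w) (app h' w)) u =
      ZFSet.pair (app B' u) (app h' u) := fun u hu => app_resS hu
  refine ⟨I1, resS I1 fun w => ZFSet.pair (app B' w) (app h' w), I1H, F1N, fun u hu => ?_,
    fun u hu u' hu' hne => ?_, fun ρ hρN hρC hsub hUρ G hG t p' r hE' hr => ?_⟩
  · obtain ⟨s1, s2, s3, s4, s5, s6, s7, s8⟩ := hP u hu
    rw [F1v u hu]
    refine ⟨⟨by rw [fst_pair, snd_pair], by rw [fst_pair, snd_pair]; exact s6⟩, ?_, ?_, ?_⟩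
    · unfold BS.Lr
      rw [fst_pair, snd_pair]
      exact s7
    · intro j hj hjc
      rw [fst_pair] at hj
      by_cases h : j ∈ U
      · exact htm j h hjc
      · exact (s8 j hj h).2.2 hξH hjc
    · intro j hj h
      rw [fst_pair] at hj
      exact ⟨(s8 j hj h).1, (s8 j hj h).2.1⟩
  · rw [F1v u hu, F1v u' hu', fst_pair, fst_pair]
    exact hdis u hu u' hu' hne
  · obtain ⟨hx, htJ, -, -, -⟩ := hA t p' r hE'
    obtain ⟨p1, r1, e1, e2, e3⟩ := hc' _ _ hx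
    obtain ⟨-, -, w1, w2, w3⟩ := hA _ _ _ e2
    have hu : ∀ n : ℕ, ZFSet.pair (nS n) (ZFSet.pair t (rst U r)) ∈ I1 := fun n =>
      ZFSet.mem_prod.2 ⟨_, nS_mem_om n, _, hx, rfl⟩
    have Eov : ∀ n : ℕ, app Eo (ZFSet.pair (nS n) (ZFSet.pair t (rst U r))) = fst p1 := by
      intro n
      rw [hEo, app_resS (hu n), snd_pair, e1, fst_pair]
    have Ehv : ∀ n : ℕ, app Eh (ZFSet.pair (nS n) (ZFSet.pair t (rst U r))) = snd p1 := by
      intro n
      rw [hEh, app_resS (hu n), snd_pair, e1, fst_pair]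
    refine ⟨p1, r1, e2, ?_⟩
    -- the copies
    have key : ∀ n : ℕ, ∃ π, π = app P (ZFSet.pair (nS n) (ZFSet.pair t (rst U r))) ∧
        b.Cpw D ξ q π p1 (app (resS I1 fun w => ZFSet.pair (app B' w) (app h' w))
          (ZFSet.pair (nS n) (ZFSet.pair t (rst U r)))) ∧
        Isl D b.l b.S π (b.u (fst p1))
          (b.u (app B' (ZFSet.pair (nS n) (ZFSet.pair t (rst U r))))) ∧ Idn π U ∧
        b.u (app B' (ZFSet.pair (nS n) (ZFSet.pair t (rst U r)))) ⊆ ρ := by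
      intro n
      obtain ⟨s1, s2, s3, s4, s5, s6, s7, s8⟩ := hP _ (hu n)
      rw [Eov] at s1 s3 s5
      rw [Ehv] at s4
      refine ⟨_, rfl, ?_, s1.i, s2, ?_⟩
      · rw [F1v _ (hu n)]
        refine ⟨?_, s2, fun j hj hjc => s1.v j hj hjc, ?_, ?_, ?_⟩
        · rw [fst_pair]
          exact s1.i
        · rw [s3, s4]
        · rw [fst_pair, snd_pair]
        · rw [fst_pair, snd_pair]
          exact s6
      · have := hsub _ (hu n)
        rw [F1v _ (hu n), fst_pair] at this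
        exact this
    choose π hπ hcp hiso hid hsb using key
    have r1F : FF r1 := ((hBC.2.2.2.1 _ _ _).1 w3).1
    have r1d : dm r1 ⊆ b.u (fst p1) := ((hBC.2.2.2.1 _ _ _).1 w3).2.1
    have Us : U ⊆ b.u (fst p1) := (ok.leO _ _ w2.le).2.2
    have ob1 : fst p1 ∈ b.Ob := (ok.leO _ _ w2.le).2.1
    have hinj : ∀ n, Ijo (π n) (b.u (fst p1)) := fun n => (hQ1 D hD _ _ _ _ _ hS (hiso n)).1.2.1
    have him : ∀ n, im (π n) U = U := fun n => (hTBa.2.2.2.2.1 _ _ (hid n)).1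
    have hqP : ∀ n, mv (π n) r1 ∈ D.P ρ := by
      intro n
      have h1 := ((hQ2 D hD _ _ _ _ _ hS (hiso n) (b.u (fst p1)) (hHN _ (ok.cs _ ob1).h)
        (fun _ h => h) (hBA.2.2.2.2.2.2 D.L _ (ok.cs _ ob1).c).1).2 r1 w3).1
      rw [(hQ1 D hD _ _ _ _ _ hS (hiso n)).1.2.2.1] at h1
      exact hBD.2.1 _ _ _ _ h1 fun i hi =>
        hsb n (((hBC.2.2.2.1 _ _ _).1 h1).2.1 hi)
    have hrq : ∀ n, rst U (mv (π n) r1) = rst U r := by
      intro n
      have h1 := (hTBa.1 _ _ (hinj n) r1 r1F r1d).2.2.2.2 U Us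
      rw [him n, e3] at h1
      have h2 : FF (rst U r) := by
        rw [← e3]
        exact (hBC.2.2.2.2.1 U r1 r1F).1
      have h3 : dm (rst U r) ⊆ U := by
        rw [← e3]
        exact fun i hi => (((hBC.2.2.2.2.1 U r1 r1F).2.1 i).1 hi).2
      rw [h1]
      exact (hTBa.2.2.2.2.1 _ _ (hid n)).2 _ h2 h3
    have hdm : ∀ n, ∀ i ∈ b.u (fst p1), (app (π n) i ∈ dm (mv (π n) r1) ↔ i ∈ dm r1) := fun n i hi =>
      ((hTBa.1 _ _ (hinj n) r1 r1F r1d).2.2.1 i hi).1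
    have hdm' : ∀ n, ∀ j ∈ dm (mv (π n) r1), j ∈ b.u (app B'
        (ZFSet.pair (nS n) (ZFSet.pair t (rst U r)))) := by
      intro n j hj
      rw [(hTBa.1 _ _ (hinj n) r1 r1F r1d).2.1] at hj
      obtain ⟨i, hi, rfl⟩ := (hTBa.2.1 _ _ _).1 hj
      exact ((hQ1 D hD _ _ _ _ _ hS (hiso n)).2.1 i (r1d hi)).1
    have hne : ∀ m n : ℕ, m ≠ n → ZFSet.pair (nS m) (ZFSet.pair t (rst U r)) ≠
        ZFSet.pair (nS n) (ZFSet.pair t (rst U r)) := fun m n h h' =>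
      h (nS_inj.1 (ZFSet.pair_injective h').1)
    by_cases hd : dm r1 ⊆ U
    · refine ⟨_, hu 0, π 0, hcp 0, ?_⟩
      have h1 : mv (π 0) r1 = r1 := (hTBa.2.2.2.2.1 _ _ (hid 0)).2 _ r1F hd
      rw [h1]
      have h2 : rst U r1 = r1 := (hBC.2.2.2.2.1 U r1 r1F).2.2.2 hd
      rw [← h2, e3]
      exact hr
    · obtain ⟨i0, hi0, hi0'⟩ : ∃ i ∈ dm r1, i ∉ U := by
        by_contra hcon
        exact hd fun i hi => by_contra fun h => hcon ⟨i, hi, h⟩
      have hnU : ∀ n, app (π n) i0 ∉ U := by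
        intro n h
        have h1 : app (π n) (app (π n) i0) = app (π n) i0 := hid n _ h
        have h2 := hinj n _ (Us h) _ (r1d hi0) h1
        rw [h2] at h
        exact hi0' h
      have r1N : D.N r1 := (zfm.of_pair (zfm.of_pair (zfm.trans _ hE.n _ e2)).2).2
      have trN : D.N (ZFSet.pair t (rst U r)) := zfm.trans _ AN _ hx
      have hQN := (X1.tm4 hBBc).1 D.N zfm (cons P (cons (ZFSet.pair t (rst U r)) (cons r1
        fun _ => r1))) (In.cons (In.cons (In.cons (fun _ => r1N) r1N) trN) PN)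
      have hqi : ∀ m n, m ≠ n → mv (π m) r1 ≠ mv (π n) r1 := by
        intro m n hmn h
        have h1 := (hdm m i0 (r1d hi0)).2 hi0
        have h2 := hdm' m _ h1
        rw [h] at h1
        have h3 := hdm' n _ h1
        have h4 := hdis _ (hu m) _ (hu n) (hne m n hmn)
        have h5 : app (π m) i0 ∈ U := by
          rw [hU, ← h4]
          exact ZFSet.mem_inter.2 ⟨h2, h3⟩
        exact hnU m h5
      set Q := imS om fun n => mv (app P (ZFSet.pair n (ZFSet.pair t (rst U r)))) r1 with hQ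
      have hQm : ∀ z, z ∈ Q ↔ ∃ n : ℕ, mv (π n) r1 = z := by
        intro z
        rw [hQ, mem_imS]
        constructor
        · rintro ⟨x, hx, rfl⟩
          obtain ⟨n, rfl⟩ := mem_om.1 hx
          exact ⟨n, by rw [hπ n]⟩
        · rintro ⟨n, rfl⟩
          exact ⟨nS n, nS_mem_om n, by rw [hπ n]⟩
      obtain ⟨z, hz, hzG⟩ := hQC3 D hD ρ U G Q (rst U r) hρN hρC hG hUρ UN UT hQN
        (fun z hz => by
          obtain ⟨n, rfl⟩ := (hQm z).1 hz
          exact hqP n)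
        (fun z hz => by
          obtain ⟨n, rfl⟩ := (hQm z).1 hz
          exact hrq n)
        (fun z hz z' hz' hne' i hi hi' => by
          obtain ⟨n, rfl⟩ := (hQm z).1 hz
          obtain ⟨m, rfl⟩ := (hQm z').1 hz'
          have hnm : n ≠ m := fun h => hne' (by rw [h])
          rw [hU, ← hdis _ (hu n) _ (hu m) (hne n m hnm)]
          exact ZFSet.mem_inter.2 ⟨hdm' n i hi, hdm' m i hi'⟩)
        (fun hfin => by
          have h1 : (Set.range fun n : ℕ => mv (π n) r1) ⊆ (Q : Set V) := by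
            rintro z ⟨n, rfl⟩
            exact (hQm _).2 ⟨n, rfl⟩
          have h2 : Function.Injective fun n : ℕ => mv (π n) r1 := by
            intro m n h
            by_contra hmn
            exact hqi m n hmn h
          exact Set.infinite_range_of_injective h2 (hfin.subset h1))
        hr
      obtain ⟨n, rfl⟩ := (hQm z).1 hz
      exact ⟨_, hu n, π n, hcp n, hzG⟩

end SE.UZ
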